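import Pool.Agent.V8H59.CF.M

/-!
# The axioms `BASIC` in the model
-/

set_option autoImplicit false

namespace Pool.Agent.V8H59.CF

open Pool.Agent.TH686.BA Pool.Agent.V8H57.BX
open Filter

/-- formulas without quantifiers -/
def opb : ∀ {n : ℕ}, FR n → Bool
  | _, .eq _ _ => true
  | _, .le _ _ => true
  | _, .rel _ => true
  | _, .not φ => opb φ
  | _, .and φ ψ => opb φ && opb ψ
  | _, .or φ ψ => opb φ && opb ψ
  | _, .all _ _ => false
  | _, .ex _ _ => false

theorem opb_tl {n : ℕ} (φ : FR n) (h : opb φ = true) : TL φ := by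
  induction φ with
  | eq s t => exact tl_eq s t
  | le s t => exact tl_le s t
  | rel t => exact tl_rel t
  | not φ ih => exact tl_not (ih h)
  | and φ ψ ih1 ih2 =>
    simp only [opb, Bool.and_eq_true] at h
    exact tl_and (ih1 h.1) (ih2 h.2)
  | or φ ψ ih1 ih2 =>
    simp only [opb, Bool.and_eq_true] at h
    exact tl_or (ih1 h.1) (ih2 h.2)
  | all t φ => simp [opb] at h
  | ex t φ => simp [opb] at h

theorem basic_of {M : StrR} (hat : ∀ (n : ℕ) (φ : FR n), opb φ = true →
    (∀ (B : ℕ → Prop) (w : Fin n → (natR B).carrier), φ.eval (natR B) w) →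
    ∀ v : Fin n → M.carrier, φ.eval M v) : M.toStr.Basic where
  b1 := fun x y => by
    have h := hat 2 (imp (.le (.var 1) (.var 0)) (.le (.var 1) (.succ (.var 0)))) rfl (fun B w => by
      simp only [eval_imp, FR.eval, Tm.eval]
      exact natStr_basic.b1 _ _) ![x, y]
    simp only [eval_imp, FR.eval, Tm.eval] at h
    exact h
  b2 := fun x => by
    have h := hat 1 (.not (.eq (.var 0) (.succ (.var 0)))) rfl (fun B w => by
      simp only [FR.eval, Tm.eval]
      exact natStr_basic.b2 _) ![x]
    simp only [FR.eval, Tm.eval] at h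
    exact h
  b3 := fun x => by
    have h := hat 1 (.le .zero (.var 0)) rfl (fun B w => by
      simp only [FR.eval, Tm.eval]
      exact natStr_basic.b3 _) ![x]
    simp only [FR.eval, Tm.eval] at h
    exact h
  b4 := fun x y => by
    have h := hat 2 (ifff (.and (.le (.var 0) (.var 1)) (.not (.eq (.var 0) (.var 1)))) (.le (.succ (.var 0)) (.var 1))) rfl (fun B w => by
      simp only [eval_ifff, FR.eval, Tm.eval]
      exact natStr_basic.b4 _ _) ![x, y]
    simp only [eval_ifff, FR.eval, Tm.eval] at h
    exact h
  b5 := fun x => by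
    have h := hat 1 (imp (.not (.eq (.var 0) .zero)) (.not (.eq (.mul (.succ (.succ .zero)) (.var 0)) .zero))) rfl (fun B w => by
      simp only [eval_imp, FR.eval, Tm.eval]
      exact natStr_basic.b5 _) ![x]
    simp only [eval_imp, FR.eval, Tm.eval] at h
    exact h
  b6 := fun x y => by
    have h := hat 2 (.or (.le (.var 1) (.var 0)) (.le (.var 0) (.var 1))) rfl (fun B w => by
      simp only [FR.eval, Tm.eval]
      exact natStr_basic.b6 _ _) ![x, y]
    simp only [FR.eval, Tm.eval] at h
    exact h
  b7 := fun x y => by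
    have h := hat 2 (imp (.and (.le (.var 0) (.var 1)) (.le (.var 1) (.var 0))) (.eq (.var 0) (.var 1))) rfl (fun B w => by
      simp only [eval_imp, FR.eval, Tm.eval]
      exact natStr_basic.b7 _ _) ![x, y]
    simp only [eval_imp, FR.eval, Tm.eval] at h
    exact h
  b8 := fun x y z => by
    have h := hat 3 (imp (.and (.le (.var 0) (.var 1)) (.le (.var 1) (.var 2))) (.le (.var 0) (.var 2))) rfl (fun B w => by
      simp only [eval_imp, FR.eval, Tm.eval]
      exact natStr_basic.b8 _ _ _) ![x, y, z]
    simp only [eval_imp, FR.eval, Tm.eval] at h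
    exact h
  b9 := by
    have h := hat 0 (.eq (.len .zero) .zero) rfl (fun B w => by
      simp only [FR.eval, Tm.eval]
      exact natStr_basic.b9 ) (fun i => i.elim0)
    simp only [FR.eval, Tm.eval] at h
    exact h
  b10 := fun x => by
    have h := hat 1 (imp (.not (.eq (.var 0) .zero)) (.and (.eq (.len (.mul (.succ (.succ .zero)) (.var 0))) (.succ (.len (.var 0)))) (.eq (.len (.succ (.mul (.succ (.succ .zero)) (.var 0)))) (.succ (.len (.var 0)))))) rfl (fun B w => by
      simp only [eval_imp, FR.eval, Tm.eval]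
      exact natStr_basic.b10 _) ![x]
    simp only [eval_imp, FR.eval, Tm.eval] at h
    exact h
  b11 := by
    have h := hat 0 (.eq (.len (.succ .zero)) (.succ .zero)) rfl (fun B w => by
      simp only [FR.eval, Tm.eval]
      exact natStr_basic.b11 ) (fun i => i.elim0)
    simp only [FR.eval, Tm.eval] at h
    exact h
  b12 := fun x y => by
    have h := hat 2 (imp (.le (.var 0) (.var 1)) (.le (.len (.var 0)) (.len (.var 1)))) rfl (fun B w => by
      simp only [eval_imp, FR.eval, Tm.eval]
      exact natStr_basic.b12 _ _) ![x, y]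
    simp only [eval_imp, FR.eval, Tm.eval] at h
    exact h
  b13 := fun x y => by
    have h := hat 2 (.eq (.len (.smash (.var 0) (.var 1))) (.succ (.mul (.len (.var 0)) (.len (.var 1))))) rfl (fun B w => by
      simp only [FR.eval, Tm.eval]
      exact natStr_basic.b13 _ _) ![x, y]
    simp only [FR.eval, Tm.eval] at h
    exact h
  b14 := fun x => by
    have h := hat 1 (.eq (.smash .zero (.var 0)) (.succ .zero)) rfl (fun B w => by
      simp only [FR.eval, Tm.eval]
      exact natStr_basic.b14 _) ![x]
    simp only [FR.eval, Tm.eval] at h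
    exact h
  b15 := fun x => by
    have h := hat 1 (imp (.not (.eq (.var 0) .zero)) (.and (.eq (.smash (.succ .zero) (.mul (.succ (.succ .zero)) (.var 0))) (.mul (.succ (.succ .zero)) (.smash (.succ .zero) (.var 0)))) (.eq (.smash (.succ .zero) (.succ (.mul (.succ (.succ .zero)) (.var 0)))) (.mul (.succ (.succ .zero)) (.smash (.succ .zero) (.var 0)))))) rfl (fun B w => by
      simp only [eval_imp, FR.eval, Tm.eval]
      exact natStr_basic.b15 _) ![x]
    simp only [eval_imp, FR.eval, Tm.eval] at h
    exact h
  b16 := fun x y => by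
    have h := hat 2 (.eq (.smash (.var 0) (.var 1)) (.smash (.var 1) (.var 0))) rfl (fun B w => by
      simp only [FR.eval, Tm.eval]
      exact natStr_basic.b16 _ _) ![x, y]
    simp only [FR.eval, Tm.eval] at h
    exact h
  b17 := fun x y z => by
    have h := hat 3 (imp (.eq (.len (.var 0)) (.len (.var 1))) (.eq (.smash (.var 0) (.var 2)) (.smash (.var 1) (.var 2)))) rfl (fun B w => by
      simp only [eval_imp, FR.eval, Tm.eval]
      exact natStr_basic.b17 _ _ _) ![x, y, z]
    simp only [eval_imp, FR.eval, Tm.eval] at h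
    exact h
  b18 := fun x y z u => by
    have h := hat 4 (imp (.eq (.len (.var 0)) (.add (.len (.var 2)) (.len (.var 3)))) (.eq (.smash (.var 0) (.var 1)) (.mul (.smash (.var 2) (.var 1)) (.smash (.var 3) (.var 1))))) rfl (fun B w => by
      simp only [eval_imp, FR.eval, Tm.eval]
      exact natStr_basic.b18 _ _ _ _) ![x, y, z, u]
    simp only [eval_imp, FR.eval, Tm.eval] at h
    exact h
  b19 := fun x y => by
    have h := hat 2 (.le (.var 0) (.add (.var 0) (.var 1))) rfl (fun B w => by
      simp only [FR.eval, Tm.eval]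
      exact natStr_basic.b19 _ _) ![x, y]
    simp only [FR.eval, Tm.eval] at h
    exact h
  b20 := fun x y => by
    have h := hat 2 (imp (.and (.le (.var 0) (.var 1)) (.not (.eq (.var 0) (.var 1)))) (.and (.le (.succ (.mul (.succ (.succ .zero)) (.var 0))) (.mul (.succ (.succ .zero)) (.var 1))) (.not (.eq (.succ (.mul (.succ (.succ .zero)) (.var 0))) (.mul (.succ (.succ .zero)) (.var 1)))))) rfl (fun B w => by
      simp only [eval_imp, FR.eval, Tm.eval]
      exact natStr_basic.b20 _ _) ![x, y]
    simp only [eval_imp, FR.eval, Tm.eval] at h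
    exact h
  b21 := fun x y => by
    have h := hat 2 (.eq (.add (.var 0) (.var 1)) (.add (.var 1) (.var 0))) rfl (fun B w => by
      simp only [FR.eval, Tm.eval]
      exact natStr_basic.b21 _ _) ![x, y]
    simp only [FR.eval, Tm.eval] at h
    exact h
  b22 := fun x => by
    have h := hat 1 (.eq (.add (.var 0) .zero) (.var 0)) rfl (fun B w => by
      simp only [FR.eval, Tm.eval]
      exact natStr_basic.b22 _) ![x]
    simp only [FR.eval, Tm.eval] at h
    exact h
  b23 := fun x y => by
    have h := hat 2 (.eq (.add (.var 0) (.succ (.var 1))) (.succ (.add (.var 0) (.var 1)))) rfl (fun B w => by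
      simp only [FR.eval, Tm.eval]
      exact natStr_basic.b23 _ _) ![x, y]
    simp only [FR.eval, Tm.eval] at h
    exact h
  b24 := fun x y z => by
    have h := hat 3 (.eq (.add (.add (.var 0) (.var 1)) (.var 2)) (.add (.var 0) (.add (.var 1) (.var 2)))) rfl (fun B w => by
      simp only [FR.eval, Tm.eval]
      exact natStr_basic.b24 _ _ _) ![x, y, z]
    simp only [FR.eval, Tm.eval] at h
    exact h
  b25 := fun x y z => by
    have h := hat 3 (ifff (.le (.add (.var 0) (.var 1)) (.add (.var 0) (.var 2))) (.le (.var 1) (.var 2))) rfl (fun B w => by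
      simp only [eval_ifff, FR.eval, Tm.eval]
      exact natStr_basic.b25 _ _ _) ![x, y, z]
    simp only [eval_ifff, FR.eval, Tm.eval] at h
    exact h
  b26 := fun x => by
    have h := hat 1 (.eq (.mul (.var 0) .zero) .zero) rfl (fun B w => by
      simp only [FR.eval, Tm.eval]
      exact natStr_basic.b26 _) ![x]
    simp only [FR.eval, Tm.eval] at h
    exact h
  b27 := fun x y => by
    have h := hat 2 (.eq (.mul (.var 0) (.succ (.var 1))) (.add (.mul (.var 0) (.var 1)) (.var 0))) rfl (fun B w => by
      simp only [FR.eval, Tm.eval]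
      exact natStr_basic.b27 _ _) ![x, y]
    simp only [FR.eval, Tm.eval] at h
    exact h
  b28 := fun x y => by
    have h := hat 2 (.eq (.mul (.var 0) (.var 1)) (.mul (.var 1) (.var 0))) rfl (fun B w => by
      simp only [FR.eval, Tm.eval]
      exact natStr_basic.b28 _ _) ![x, y]
    simp only [FR.eval, Tm.eval] at h
    exact h
  b29 := fun x y z => by
    have h := hat 3 (.eq (.mul (.var 0) (.add (.var 1) (.var 2))) (.add (.mul (.var 0) (.var 1)) (.mul (.var 0) (.var 2)))) rfl (fun B w => by
      simp only [FR.eval, Tm.eval]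
      exact natStr_basic.b29 _ _ _) ![x, y, z]
    simp only [FR.eval, Tm.eval] at h
    exact h
  b30 := fun x y z => by
    have h := hat 3 (imp (.le (.succ .zero) (.var 0)) (ifff (.le (.mul (.var 0) (.var 1)) (.mul (.var 0) (.var 2))) (.le (.var 1) (.var 2)))) rfl (fun B w => by
      simp only [eval_imp, eval_ifff, FR.eval, Tm.eval]
      exact natStr_basic.b30 _ _ _) ![x, y, z]
    simp only [eval_imp, eval_ifff, FR.eval, Tm.eval] at h
    exact h
  b31 := fun x => by
    have h := hat 1 (imp (.not (.eq (.var 0) .zero)) (.eq (.len (.var 0)) (.succ (.len (.half (.var 0)))))) rfl (fun B w => by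
      simp only [eval_imp, FR.eval, Tm.eval]
      exact natStr_basic.b31 _) ![x]
    simp only [eval_imp, FR.eval, Tm.eval] at h
    exact h
  b32 := fun x y => by
    have h := hat 2 (ifff (.eq (.var 0) (.half (.var 1))) (.or (.eq (.mul (.succ (.succ .zero)) (.var 0)) (.var 1)) (.eq (.succ (.mul (.succ (.succ .zero)) (.var 0))) (.var 1)))) rfl (fun B w => by
      simp only [eval_ifff, FR.eval, Tm.eval]
      exact natStr_basic.b32 _ _) ![x, y]
    simp only [eval_ifff, FR.eval, Tm.eval] at h
    exact h

theorem basicMS : MS.toStr.Basic := basic_of fun n φ h hφ v => by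
  obtain ⟨idx, rfl⟩ := exists_idx v
  rw [opb_tl φ h idx]
  exact Eventually.of_forall fun n => hφ _ _

theorem modelMS : MS.IsModelT 1 := ⟨basicMS, fun _ φ h => ind1 φ h⟩

end Pool.Agent.V8H59.CF
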