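import Pool.Agent.V8H59.CF.W

/-!
# One step of the construction
-/

set_option autoImplicit false

namespace Pool.Agent.V8H59.CF

open Pool.Agent.TH686.BA Pool.Agent.V8H57.BX

/-- agreement on a finite set -/
def Agr (C : Finset ℕ) (B B' : ℕ → Prop) : Prop := ∀ m ∈ C, (B' m ↔ B m)

theorem Agr.rfl' {C : Finset ℕ} {B : ℕ → Prop} : Agr C B B := fun _ _ => Iff.rfl

theorem Agr.trans' {C : Finset ℕ} {B B' B'' : ℕ → Prop} (h : Agr C B B') (h' : Agr C B' B'') :
    Agr C B B'' := fun m hm => (h' m hm).trans (h m hm)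

theorem Agr.mono {C C' : Finset ℕ} {B B' : ℕ → Prop} (h : Agr C' B B') (hC : C ⊆ C') :
    Agr C B B' := fun m hm => h m (hC hm)

/-- the number which codes the pair `a`, `b` at `x` -/
def pos (x a b : ℕ) : ℕ := 2 * P (P x a) b + 1

theorem pos_inj {x a b x' a' b' : ℕ} (h : pos x a b = pos x' a' b') : x = x' ∧ a = a' ∧ b = b' := by
  have h1 : P (P x a) b = P (P x' a') b' := by
    simp only [pos] at h
    omega
  have h2 := P_inj h1
  exact ⟨(P_inj h2.1).1, (P_inj h2.1).2, h2.2⟩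

/-- the world with the linear order of the numbers up to `x` given by `ρ` -/
def wo (B₀ : ℕ → Prop) (x : ℕ) (ρ : ℕ → ℤ) (m : ℕ) : Prop :=
  B₀ m ∨ ∃ a b, a ≤ x ∧ b ≤ x ∧ ρ a < ρ b ∧ m = pos x a b

/-- the admissible worlds -/
def Fam (B₀ : ℕ → Prop) (x : ℕ) (B : ℕ → Prop) : Prop :=
  ∃ ρ : ℕ → ℤ, (∀ a b, a ≤ x → b ≤ x → ρ a = ρ b → a = b) ∧ B = wo B₀ x ρ

theorem wo_pos {B₀ : ℕ → Prop} {x : ℕ} (h0 : ∀ a b, ¬ B₀ (pos x a b)) (ρ : ℕ → ℤ) {a b : ℕ}
    (ha : a ≤ x) (hb : b ≤ x) : wo B₀ x ρ (pos x a b) ↔ ρ a < ρ b := by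
  constructor
  · rintro (h | ⟨a', b', -, -, h, h2⟩)
    · exact absurd h (h0 a b)
    · obtain ⟨-, rfl, rfl⟩ := pos_inj h2
      exact h
  · intro h
    exact Or.inr ⟨a, b, ha, hb, h, rfl⟩

/-- instructions -/
structure Ins where
  c : ℕ
  k : ℕ
  t : Tm k
  φ : FR (k + 1)
  θ : FR k
  idx : Fin k → ℕ
  a : ℕ

instance : Countable Ins := by
  let f : Ins → ℕ × (Σ k : ℕ, ℕ × ℕ × ℕ × (Fin k → ℕ)) × ℕ := fun i =>
    (i.c, ⟨i.k, cT i.t, cF i.φ, cF i.θ, i.idx⟩, i.a)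
  refine Function.Injective.countable (f := f) ?_
  rintro ⟨c, k, t, φ, θ, idx, a⟩ ⟨c', k', t', φ', θ', idx', a'⟩ h
  simp only [f, Prod.mk.injEq, Sigma.mk.injEq] at h
  obtain ⟨rfl, ⟨rfl, h2⟩, rfl⟩ := h
  have h3 := eq_of_heq h2
  simp only [Prod.mk.injEq] at h3
  obtain ⟨h4, h5, h6, rfl⟩ := h3
  rw [cT_inj _ _ h4, cF_inj _ _ h5, cF_inj _ _ h6]

/-- the arguments -/
abbrev Ins.v (i : Ins) (vals : ℕ → ℕ) : Fin i.k → ℕ := fun j => vals (i.idx j)

/-- a number added to the arguments -/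
abbrev cn {k : ℕ} (w : ℕ) (v : Fin k → ℕ) : Fin (k + 1) → ℕ := Fin.cons (α := fun _ => ℕ) w v

/-- what the instruction achieves -/
structure Sp (F : (ℕ → Prop) → Prop) (x : ℕ) (i : Ins) (vals : ℕ → ℕ) (B : ℕ → Prop)
    (C : Finset ℕ) (y : ℕ) : Prop where
  s0 : i.c = 0 → y = x
  s1 : i.c = 1 → Lv true 1 i.φ → ∀ B', F B' → Agr C B B' →
    (∃ w, w ≤ ev i.t (i.v vals) ∧ evF B' i.φ (cn w (i.v vals))) →
    y ≤ ev i.t (i.v vals) ∧ evF B' i.φ (cn y (i.v vals))
  s2 : i.c = 2 → Lv true 1 i.φ → ∀ B', F B' → Agr C B B' →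
    (∃ w, w ≤ (ev i.t (i.v vals)).size ∧ ¬ evF B' i.φ (cn w (i.v vals))) →
    y ≤ (ev i.t (i.v vals)).size ∧ ¬ evF B' i.φ (cn y (i.v vals))
  s3 : i.c = 3 → Lv true 1 i.φ → ∀ B', F B' → Agr C B B' →
    evF B' i.φ (cn 0 (i.v vals)) → y ≤ vals i.a ∧ evF B' i.φ (cn y (i.v vals)) ∧
    (y < vals i.a → ¬ evF B' i.φ (cn (y + 1) (i.v vals)))
  s4 : i.c = 4 → vals i.a ≤ x → y ≤ x ∧ y ≠ vals i.a ∧
    ∀ B', Agr C B B' → B' (pos x y (vals i.a))
  s5 : i.c = 5 → Lv false 1 i.θ → ((∀ B', F B' → Agr C B B' → evF B' i.θ (i.v vals)) ∨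
    ∀ B', Agr C B B' → ¬ evF B' i.θ (i.v vals))

theorem Sp.ext {F : (ℕ → Prop) → Prop} {x : ℕ} {i : Ins} {vals : ℕ → ℕ} {B B1 : ℕ → Prop}
    {C C1 : Finset ℕ} {y : ℕ} (h : Sp F x i vals B C y) (h1 : Agr C B B1) (h2 : C ⊆ C1) :
    Sp F x i vals B1 C1 y where
  s0 := h.s0
  s1 := fun hc hl B' hF hB' => h.s1 hc hl B' hF (h1.trans' (hB'.mono h2))
  s2 := fun hc hl B' hF hB' => h.s2 hc hl B' hF (h1.trans' (hB'.mono h2))
  s3 := fun hc hl B' hF hB' => h.s3 hc hl B' hF (h1.trans' (hB'.mono h2))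
  s4 := fun hc hx => ⟨(h.s4 hc hx).1, (h.s4 hc hx).2.1, fun B' hB' =>
    (h.s4 hc hx).2.2 B' (h1.trans' (hB'.mono h2))⟩
  s5 := fun hc hl => (h.s5 hc hl).imp
    (fun h' B' hF hB' => h' B' hF (h1.trans' (hB'.mono h2)))
    (fun h' B' hB' => h' B' (h1.trans' (hB'.mono h2)))

theorem exists_max (p : ℕ → Prop) (R : ℕ) (h : ∃ k, p k) (hR : ∀ k, p k → k ≤ R) :
    ∃ k, p k ∧ ∀ k', p k' → k' ≤ k := by
  classical
  obtain ⟨k0, hk0⟩ := h
  refine ⟨Nat.findGreatest p R, Nat.findGreatest_spec (hR k0 hk0) hk0, fun k' hk' => ?_⟩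
  exact Nat.le_findGreatest (hR k' hk') hk'

/-- what one step does -/
def Stp (i : Ins) (K : ℕ) : Prop := ∀ L, 2 ≤ L → ∀ (x : ℕ) (vals : ℕ → ℕ) (B₀ B : ℕ → Prop)
  (C : Finset ℕ), x.size ≤ L → (∀ j, (vals j).size ≤ L) → (∀ a b, ¬ B₀ (pos x a b)) →
  Fam B₀ x B → 2 * C.card + 2 ≤ x → ∃ (B' : ℕ → Prop) (C' : Finset ℕ) (y : ℕ),
    Fam B₀ x B' ∧ Agr C B B' ∧ C ⊆ C' ∧ C'.card ≤ C.card + L ^ K ∧ y.size ≤ L ^ K ∧
    Sp (Fam B₀ x) x i vals B' C' y

theorem stp0 (i : Ins) (hc : i.c = 0) : Stp i 1 := by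
  intro L _ x vals B₀ B C hx _ _ hF _
  refine ⟨B, C, x, hF, Agr.rfl', Finset.Subset.refl _, by omega, by rw [pow_one]; exact hx, ?_⟩
  exact ⟨fun _ => rfl, fun h => by omega, fun h => by omega, fun h => by omega,
    fun h => by omega, fun h => by omega⟩

theorem stp_triv (i : Ins) (h : ∀ (F : (ℕ → Prop) → Prop) (x : ℕ) (vals : ℕ → ℕ)
    (B : ℕ → Prop) (C : Finset ℕ), Sp F x i vals B C 0) : Stp i 0 := by
  intro L _ x vals B₀ B C _ _ _ hF _
  exact ⟨B, C, 0, hF, Agr.rfl', Finset.Subset.refl _, by omega, by simp, h _ _ _ _ _⟩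

theorem pw {L a b : ℕ} (hL : 2 ≤ L) (h : a ≤ b) : L ^ a ≤ L ^ b :=
  Nat.pow_le_pow_right (by omega) h

theorem stp1 (i : Ins) (hc : i.c = 1) : ∃ K, Stp i K := by
  classical
  by_cases hlv : Lv true 1 i.φ
  swap
  · exact ⟨0, stp_triv i fun F x vals B C => ⟨fun h => by omega, fun _ h => absurd h hlv,
      fun h => by omega, fun h => by omega, fun h => by omega, fun h => by omega⟩⟩
  obtain ⟨c, hcert⟩ := (cert_lv hlv).2 rfl
  obtain ⟨k, hk⟩ := size_bd i.t
  refine ⟨(k + 1) * c + k, ?_⟩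
  intro L hL x vals B₀ B C _ hv _ hF _
  have e1 := pw hL (show (k + 1) * c ≤ (k + 1) * c + k by omega)
  have e2 := pw hL (show k ≤ (k + 1) * c + k by omega)
  by_cases hex : ∃ B', Fam B₀ x B' ∧ Agr C B B' ∧
      ∃ w, w ≤ ev i.t (i.v vals) ∧ evF B' i.φ (cn w (i.v vals))
  · obtain ⟨B', h1, h2, w, h3, h4⟩ := hex
    have h5 : w.size ≤ L ^ k := (Nat.size_le_size h3).trans (hk L hL _ fun j => hv _)
    obtain ⟨C1, h6, h7⟩ := hcert (L ^ (k + 1)) (two_le_pow hL k) _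
      (small_cons hL (fun j => hv (i.idx j)) h5) B' (by simpa using h4)
    rw [← pow_mul] at h6
    refine ⟨B', C ∪ C1, w, h1, h2, Finset.subset_union_left,
      (Finset.card_union_le _ _).trans (by omega), h5.trans e2, ?_⟩
    refine ⟨fun h => by omega, fun _ _ B'' _ hB'' _ => ⟨h3, ?_⟩, fun h => by omega,
      fun h => by omega, fun h => by omega, fun h => by omega⟩
    have h8 := h7 B'' (hB''.mono Finset.subset_union_right)
    simpa using h8
  · refine ⟨B, C, 0, hF, Agr.rfl', Finset.Subset.refl _, by omega, by simp, ?_⟩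
    refine ⟨fun h => by omega, fun _ _ B'' h1 hB'' h2 => absurd ⟨B'', h1, hB'', h2⟩ hex,
      fun h => by omega, fun h => by omega, fun h => by omega, fun h => by omega⟩

theorem stp2 (i : Ins) (hc : i.c = 2) : ∃ K, Stp i K := by
  classical
  by_cases hlv : Lv true 1 i.φ
  swap
  · exact ⟨0, stp_triv i fun F x vals B C => ⟨fun h => by omega, fun h => by omega,
      fun _ h => absurd h hlv, fun h => by omega, fun h => by omega, fun h => by omega⟩⟩
  obtain ⟨c, hcert⟩ := (cert_lv hlv).2 rfl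
  obtain ⟨k, hk⟩ := size_bd i.t
  refine ⟨(k + 1) * c + (k + 1), ?_⟩
  intro L hL x vals B₀ B C _ hv _ hF _
  have e2 := pw hL (show k ≤ (k + 1) * c + (k + 1) by omega)
  set v := i.v vals with hvdef
  set N := (ev i.t v).size with hN
  have hNL : N ≤ L ^ k := hk L hL _ fun j => hv _
  let S : (ℕ → Prop) → Finset ℕ := fun B' =>
    (Finset.range (N + 1)).filter (fun w => evF B' i.φ (cn w v))
  have hS : ∀ B' w, w ∈ S B' ↔ w < N + 1 ∧ evF B' i.φ (cn w v) := fun B' w => by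
    simp only [S, Finset.mem_filter, Finset.mem_range]
  obtain ⟨r, ⟨B', h1, h2, h3⟩, hmax⟩ := exists_max
    (fun r => ∃ B', Fam B₀ x B' ∧ Agr C B B' ∧ (S B').card = r) (N + 1)
    ⟨_, B, hF, Agr.rfl', rfl⟩ (by
      rintro r ⟨B', -, -, rfl⟩
      exact (Finset.card_filter_le _ _).trans (by rw [Finset.card_range]))
  have hcw : ∀ w, ∃ Cw : Finset ℕ, w ∈ S B' → (Cw.card ≤ L ^ ((k + 1) * c) ∧
      ∀ B'' : ℕ → Prop, Agr Cw B' B'' → evF B'' i.φ (cn w v)) := by
    intro w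
    by_cases hw : w ∈ S B'
    · have hw2 := (hS B' w).1 hw
      have h5 : w.size ≤ L ^ k := (size_le_self' w).trans ((by omega : w ≤ N).trans hNL)
      obtain ⟨C1, h6, h7⟩ := hcert (L ^ (k + 1)) (two_le_pow hL k) _
        (small_cons hL (fun j => hv (i.idx j)) h5) B' (by simpa using hw2.2)
      rw [← pow_mul] at h6
      refine ⟨C1, fun _ => ⟨h6, fun B'' hB'' => ?_⟩⟩
      have h8 := h7 B'' hB''
      simpa using h8
    · exact ⟨∅, fun h => absurd h hw⟩
  choose Cw hCw using hcw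
  have hcard : ((S B').biUnion Cw).card ≤ L ^ ((k + 1) * c + (k + 1)) := by
    have h4 : ((S B').biUnion Cw).card ≤ ∑ w ∈ S B', L ^ ((k + 1) * c) :=
      Finset.card_biUnion_le.trans (Finset.sum_le_sum fun w hw => (hCw w hw).1)
    rw [Finset.sum_const, smul_eq_mul] at h4
    have h5 : (S B').card ≤ N + 1 :=
      (Finset.card_filter_le _ _).trans (by rw [Finset.card_range])
    have h6 : L ^ k + 1 ≤ L ^ (k + 1) := by
      have h4 : 1 ≤ L ^ k := Nat.one_le_pow _ _ (by omega)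
      rw [pow_succ]
      nlinarith
    refine h4.trans ?_
    rw [pow_add, mul_comm]
    exact Nat.mul_le_mul_left _ (by omega)
  have hkey : ∀ B'', Fam B₀ x B'' → Agr (C ∪ (S B').biUnion Cw) B' B'' → S B'' = S B' := by
    intro B'' hF'' hA
    have h4 : S B' ⊆ S B'' := by
      intro w hw
      rw [hS]
      refine ⟨((hS B' w).1 hw).1, (hCw w hw).2 B'' fun m hm => hA m ?_⟩
      exact Finset.mem_union_right _ (Finset.mem_biUnion.2 ⟨w, hw, hm⟩)
    have h5 := hmax _ ⟨B'', hF'', h2.trans' (hA.mono Finset.subset_union_left), rfl⟩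
    rw [← h3] at h5
    exact (Finset.eq_of_subset_of_card_le h4 h5).symm
  obtain ⟨y, hy1, hy2⟩ : ∃ y, y ≤ N ∧ ((∃ w, w ≤ N ∧ ¬ evF B' i.φ (cn w v)) →
      ¬ evF B' i.φ (cn y v)) := by
    by_cases h : ∃ w, w ≤ N ∧ ¬ evF B' i.φ (cn w v)
    · obtain ⟨w, h5, h6⟩ := h
      exact ⟨w, h5, fun _ => h6⟩
    · exact ⟨0, by omega, fun h' => absurd h' h⟩
  refine ⟨B', C ∪ (S B').biUnion Cw, y, h1, h2, Finset.subset_union_left,
    (Finset.card_union_le _ _).trans (by omega),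
    (size_le_self' y).trans ((hy1.trans hNL).trans e2), ?_⟩
  refine ⟨fun h => by omega, fun h => by omega, fun _ _ B'' hF'' hA hw => ⟨hy1, ?_⟩,
    fun h => by omega, fun h => by omega, fun h => by omega⟩
  obtain ⟨w, hw1, hw2⟩ := hw
  have h4 := hkey B'' hF'' hA
  have h5 : ∀ u, u ≤ N → (evF B'' i.φ (cn u v) ↔ evF B' i.φ (cn u v)) := by
    intro u hu
    have h6 : u ∈ S B'' ↔ u ∈ S B' := by rw [h4]
    rw [hS, hS] at h6
    constructor
    · intro h
      exact (h6.1 ⟨by omega, h⟩).2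
    · intro h
      exact (h6.2 ⟨by omega, h⟩).2
  have h7 := hy2 ⟨w, hw1, fun h => hw2 ((h5 w hw1).2 h)⟩
  exact fun h => h7 ((h5 y hy1).1 h)

theorem stp3 (i : Ins) (hc : i.c = 3) : ∃ K, Stp i K := by
  classical
  by_cases hlv : Lv true 1 i.φ
  swap
  · exact ⟨0, stp_triv i fun F x vals B C => ⟨fun h => by omega, fun h => by omega,
      fun h => by omega, fun _ h => absurd h hlv, fun h => by omega, fun h => by omega⟩⟩
  obtain ⟨c, hcert⟩ := (cert_lv hlv).2 rfl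
  refine ⟨2 * c + 1, ?_⟩
  intro L hL x vals B₀ B C _ hv _ hF _
  have e1 := pw hL (show 2 * c ≤ 2 * c + 1 by omega)
  have e2 := pw hL (show 1 ≤ 2 * c + 1 by omega)
  rw [pow_one] at e2
  set v := i.v vals with hvdef
  by_cases hex : ∃ u, u ≤ vals i.a ∧ ∃ B', Fam B₀ x B' ∧ Agr C B B' ∧ evF B' i.φ (cn u v)
  · obtain ⟨u, ⟨hu, B', h1, h2, h3⟩, hmax⟩ := exists_max
      (fun u => u ≤ vals i.a ∧ ∃ B', Fam B₀ x B' ∧ Agr C B B' ∧ evF B' i.φ (cn u v))
      (vals i.a) hex (fun u hu => hu.1)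
    have h5 : u.size ≤ L := (Nat.size_le_size hu).trans (hv _)
    obtain ⟨C1, h6, h7⟩ := hcert (L ^ (1 + 1)) (two_le_pow hL 1) _
      (small_cons hL (fun j => hv (i.idx j)) (by rw [pow_one]; exact h5)) B' (by simpa using h3)
    rw [← pow_mul, show (1 + 1) * c = 2 * c by omega] at h6
    refine ⟨B', C ∪ C1, u, h1, h2, Finset.subset_union_left,
      (Finset.card_union_le _ _).trans (by omega), h5.trans e2, ?_⟩
    refine ⟨fun h => by omega, fun h => by omega, fun h => by omega,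
      fun _ _ B'' hF'' hA _ => ⟨hu, ?_, fun hlt hh => ?_⟩, fun h => by omega, fun h => by omega⟩
    · have h8 := h7 B'' (hA.mono Finset.subset_union_right)
      simpa using h8
    · have h9 := hmax (u + 1) ⟨hlt, B'', hF'', h2.trans' (hA.mono Finset.subset_union_left), hh⟩
      omega
  · refine ⟨B, C, 0, hF, Agr.rfl', Finset.Subset.refl _, by omega, by simp, ?_⟩
    refine ⟨fun h => by omega, fun h => by omega, fun h => by omega,
      fun _ _ B'' h1 hB'' h2 => absurd ⟨0, by omega, B'', h1, hB'', h2⟩ hex,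
      fun h => by omega, fun h => by omega⟩

theorem stp5 (i : Ins) (hc : i.c = 5) : ∃ K, Stp i K := by
  classical
  by_cases hlv : Lv false 1 i.θ
  swap
  · exact ⟨0, stp_triv i fun F x vals B C => ⟨fun h => by omega, fun h => by omega,
      fun h => by omega, fun h => by omega, fun h => by omega, fun _ h => absurd h hlv⟩⟩
  obtain ⟨c, hcert⟩ := (cert_lv hlv).2 rfl
  refine ⟨c, ?_⟩
  intro L hL x vals B₀ B C _ hv _ hF _
  set v := i.v vals with hvdef
  by_cases hex : ∃ B', Fam B₀ x B' ∧ Agr C B B' ∧ ¬ evF B' i.θ v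
  · obtain ⟨B', h1, h2, h3⟩ := hex
    obtain ⟨C1, h6, h7⟩ := hcert L hL v (fun j => hv (i.idx j)) B' (by simpa using h3)
    refine ⟨B', C ∪ C1, 0, h1, h2, Finset.subset_union_left,
      (Finset.card_union_le _ _).trans (by omega), by simp, ?_⟩
    refine ⟨fun h => by omega, fun h => by omega, fun h => by omega, fun h => by omega,
      fun h => by omega, fun _ _ => Or.inr fun B'' hB'' => ?_⟩
    have h8 := h7 B'' (hB''.mono Finset.subset_union_right)
    simpa using h8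
  · refine ⟨B, C, 0, hF, Agr.rfl', Finset.Subset.refl _, by omega, by simp, ?_⟩
    refine ⟨fun h => by omega, fun h => by omega, fun h => by omega, fun h => by omega,
      fun h => by omega, fun _ _ => Or.inl fun B'' h1 hB'' => ?_⟩
    by_contra h2
    exact hex ⟨B'', h1, hB'', h2⟩

theorem stp4 (i : Ins) (hc : i.c = 4) : Stp i 1 := by
  classical
  intro L hL x vals B₀ B C hx hv h0 hF hcard
  set T := vals i.a with hT
  by_cases hTx : T ≤ x
  swap
  · refine ⟨B, C, 0, hF, Agr.rfl', Finset.Subset.refl _, by omega, by simp, ?_⟩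
    exact ⟨fun h => by omega, fun h => by omega, fun h => by omega, fun h => by omega,
      fun _ h => absurd h hTx, fun h => by omega⟩
  obtain ⟨ρ, hinj, rfl⟩ := hF
  have hdec : ∀ m, ∃ p : ℕ × ℕ, ∀ a b, m = pos x a b → p = (a, b) := by
    intro m
    by_cases h : ∃ a b, m = pos x a b
    · obtain ⟨a, b, h⟩ := h
      refine ⟨(a, b), fun a' b' h' => ?_⟩
      have h1 := pos_inj (h.symm.trans h')
      rw [h1.2.1, h1.2.2]
    · exact ⟨(0, 0), fun a b h' => absurd ⟨a, b, h'⟩ h⟩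
  choose dc hdc using hdec
  let E : Finset ℕ := insert T (C.image (fun m => (dc m).1) ∪ C.image (fun m => (dc m).2))
  have hE : E.card < (Finset.range (x + 1)).card := by
    rw [Finset.card_range]
    have h1 : E.card ≤ (C.image (fun m => (dc m).1) ∪ C.image (fun m => (dc m).2)).card + 1 :=
      Finset.card_insert_le _ _
    have h2 := Finset.card_union_le (C.image (fun m => (dc m).1)) (C.image (fun m => (dc m).2))
    have h3 : (C.image (fun m => (dc m).1)).card ≤ C.card := Finset.card_image_le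
    have h4 : (C.image (fun m => (dc m).2)).card ≤ C.card := Finset.card_image_le
    omega
  obtain ⟨z, hz1, hz2⟩ := Finset.exists_mem_notMem_of_card_lt_card hE
  have hzx : z ≤ x := by
    rw [Finset.mem_range] at hz1
    omega
  have hzT : z ≠ T := fun h => hz2 (by rw [h]; exact Finset.mem_insert_self _ _)
  have hza : ∀ a b, pos x a b ∈ C → a ≠ z ∧ b ≠ z := by
    intro a b hm
    have h1 := hdc _ a b rfl
    constructor
    · rintro rfl
      apply hz2
      refine Finset.mem_insert_of_mem (Finset.mem_union_left _ (Finset.mem_image.2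
        ⟨_, hm, ?_⟩))
      rw [h1]
    · rintro rfl
      apply hz2
      refine Finset.mem_insert_of_mem (Finset.mem_union_right _ (Finset.mem_image.2
        ⟨_, hm, ?_⟩))
      rw [h1]
  obtain ⟨c, hclow⟩ : ∃ c : ℤ, ∀ a, a ≤ x → c < ρ a := by
    obtain ⟨c, hc1⟩ := ((Finset.range (x + 1)).image ρ).finite_toSet.bddBelow
    refine ⟨c - 1, fun a ha => ?_⟩
    have h1 : c ≤ ρ a := hc1 (by
      simp only [Finset.coe_image, Set.mem_image, Finset.coe_range, Set.mem_Iio]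
      exact ⟨a, by omega, rfl⟩)
    omega
  let ρ' : ℕ → ℤ := fun a => if a = z then c else ρ a
  have hρz : ρ' z = c := if_pos rfl
  have hρa : ∀ a, a ≠ z → ρ' a = ρ a := fun a ha => if_neg ha
  refine ⟨wo B₀ x ρ', insert (pos x z T) C, z, ⟨ρ', ?_, rfl⟩, ?_, Finset.subset_insert _ _,
    ?_, ?_, ?_⟩
  · intro a b ha hb hab
    by_cases h1 : a = z
    · by_cases h2 : b = z
      · rw [h1, h2]
      · rw [h1, hρz, hρa b h2] at hab
        have := hclow b hb
        omega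
    · by_cases h2 : b = z
      · rw [h2, hρz, hρa a h1] at hab
        have := hclow a ha
        omega
      · rw [hρa a h1, hρa b h2] at hab
        exact hinj a b ha hb hab
  · intro m hm
    constructor
    · rintro (h | ⟨a, b, h1, h2, h3, rfl⟩)
      · exact Or.inl h
      · have h4 := hza a b hm
        rw [hρa a h4.1, hρa b h4.2] at h3
        exact Or.inr ⟨a, b, h1, h2, h3, rfl⟩
    · rintro (h | ⟨a, b, h1, h2, h3, rfl⟩)
      · exact Or.inl h
      · have h4 := hza a b hm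
        rw [← hρa a h4.1, ← hρa b h4.2] at h3
        exact Or.inr ⟨a, b, h1, h2, h3, rfl⟩
  · have h1 := Finset.card_insert_le (pos x z T) C
    rw [pow_one]
    omega
  · rw [pow_one]
    exact (Nat.size_le_size hzx).trans hx
  · refine ⟨fun h => by omega, fun h => by omega, fun h => by omega, fun h => by omega,
      fun _ _ => ⟨hzx, hzT, fun B' hB' => ?_⟩, fun h => by omega⟩
    rw [hB' _ (Finset.mem_insert_self _ _), wo_pos h0 ρ' hzx hTx, hρz, hρa T (Ne.symm hzT)]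
    exact hclow T hTx

theorem stp (i : Ins) : ∃ K, Stp i K := by
  rcases Nat.lt_or_ge i.c 6 with h | h
  · have h2 : i.c = 0 ∨ i.c = 1 ∨ i.c = 2 ∨ i.c = 3 ∨ i.c = 4 ∨ i.c = 5 := by omega
    rcases h2 with h | h | h | h | h | h
    · exact ⟨1, stp0 i h⟩
    · exact stp1 i h
    · exact stp2 i h
    · exact stp3 i h
    · exact ⟨1, stp4 i h⟩
    · exact stp5 i h
  · exact ⟨0, stp_triv i fun F x vals B C => ⟨fun h => by omega, fun h => by omega,
      fun h => by omega, fun h => by omega, fun h => by omega, fun h => by omega⟩⟩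

end Pool.Agent.V8H59.CF
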