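import Pool.Agent.V8H59.CF.S

/-!
# The limit of the construction
-/

set_option autoImplicit false

namespace Pool.Agent.V8H59.CF

open Pool.Agent.TH686.BA Pool.Agent.V8H57.BX

theorem exists_large (c b : ℕ) : ∃ n, b ≤ n ∧ (n + 1) ^ c < 2 ^ n := by
  have h2 := tendsto_pow_const_div_const_pow_of_one_lt c (r := (2 : ℝ)) (by norm_num)
  have h3 := (h2.eventually (gt_mem_nhds (show (0 : ℝ) < 1 / 2 by positivity))).and
    (Filter.eventually_ge_atTop (b + 1))
  obtain ⟨n, h4, h5⟩ := h3.exists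
  obtain ⟨m, rfl⟩ : ∃ m, n = m + 1 := ⟨n - 1, by omega⟩
  refine ⟨m, by omega, ?_⟩
  rw [div_lt_div_iff₀ (by positivity) (by positivity), pow_succ] at h4
  have h7 : (((m + 1) ^ c : ℕ) : ℝ) < 2 ^ m := by
    push_cast at h4 ⊢
    linarith
  exact_mod_cast h7

/-- the parts of the world fixed so far -/
structure Dt where
  X : ℕ
  V : ℕ → Prop
  W : ℕ → ℕ
  hV : ∀ z, V z → z < X
  hW : ∀ q, W q ≤ 2 ^ (q.size * q.size)

/-- the world before the stage -/
def bas (D : Dt) (x : ℕ) (m : ℕ) : Prop :=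
  (m % 2 = 0 ∧ ∃ q, q < x ∧ m / 2 = P q (D.W q) ∧ Kh D.V D.W q) ∨ (m % 2 = 1 ∧ D.V (m / 2))

/-- the result of a stage -/
structure Out where
  x : ℕ
  vals : ℕ → ℕ
  ρ : ℕ → ℤ
  C : Finset ℕ
  D : Dt

/-- the stage with number `n` -/
structure Ok (n : ℕ) (D : Dt) (o : Out) : Prop where
  hx : D.X ≤ o.x
  hx2 : o.x < o.D.X
  hinj : ∀ a b, a ≤ o.x → b ≤ o.x → o.ρ a = o.ρ b → a = b
  hsp : ∀ j < n, Sq (bas D o.x) o.x o.vals (wo (bas D o.x) o.x o.ρ) o.C j
  hC : ∀ m ∈ o.C, m < o.D.X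
  hV : ∀ z, o.D.V z ↔ (D.V z ∨ ∃ a b, a ≤ o.x ∧ b ≤ o.x ∧ o.ρ a < o.ρ b ∧ z = P (P o.x a) b)
  hW : ∀ q, q < o.x → o.D.W q = D.W q
  hW2 : ∀ q, o.x ≤ q → 2 * P q (o.D.W q) ∉ o.C

theorem bas_pos (D : Dt) {x : ℕ} (hx : D.X ≤ x) (a b : ℕ) : ¬ bas D x (pos x a b) := by
  rintro (⟨h, -⟩ | ⟨-, h⟩)
  · simp only [pos] at h
    omega
  · have h1 := D.hV _ h
    have h2 : pos x a b / 2 = P (P x a) b := by
      simp only [pos]
      omega
    rw [h2] at h1
    have h3 := le_P_left (P x a) b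
    have h4 := le_P_left x a
    omega

theorem exists_out (n : ℕ) (D : Dt) : ∃ o : Out, Ok n D o := by
  classical
  obtain ⟨s, hs1, hs2⟩ := exists_large (ex n + 2) (D.X + 1)
  obtain ⟨x, hxdef⟩ : ∃ x, x = 2 ^ s := ⟨_, rfl⟩
  have hsx : s < x := hxdef ▸ Nat.lt_two_pow_self
  have hX : D.X ≤ x := by omega
  have hsize : x.size = s + 1 := by rw [hxdef, Nat.size_pow]
  have hbig : 2 * x.size ^ ex n + 2 ≤ x := by
    rw [hsize, hxdef]
    have h1 : (s + 1) ^ (ex n + 2) = (s + 1) ^ ex n * ((s + 1) * (s + 1)) := by ring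
    have h2 : 1 ≤ (s + 1) ^ ex n := Nat.one_le_pow _ _ (by omega)
    have h3 : 4 ≤ (s + 1) * (s + 1) := by nlinarith
    rw [h1] at hs2
    nlinarith
  obtain ⟨vals, B, C, ⟨ρ, hinj, rfl⟩, hC, -, hsp⟩ := stage n x.size x (bas D x) (by omega) le_rfl
    (bas_pos D hX) hbig n le_rfl
  have hw : ∀ q, ∃ w, w ≤ 2 ^ (q.size * q.size) ∧ (x ≤ q → 2 * P q w ∉ C) := by
    intro q
    by_cases hq : x ≤ q
    · by_contra hcon
      have h1 : ∀ w ≤ 2 ^ (q.size * q.size), 2 * P q w ∈ C := by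
        intro w hw
        by_contra h2
        exact hcon ⟨w, hw, fun _ => h2⟩
      have h2 : ((Finset.range (2 ^ (q.size * q.size) + 1)).image (fun w => 2 * P q w)) ⊆ C := by
        intro m hm
        obtain ⟨w, hw, rfl⟩ := Finset.mem_image.1 hm
        exact h1 w (by rw [Finset.mem_range] at hw; omega)
      have h3 := Finset.card_le_card h2
      rw [Finset.card_image_of_injective _ (fun a b h => (P_inj (by
        have h' : 2 * P q a = 2 * P q b := h
        omega : P q a = P q b)).2), Finset.card_range] at h3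
      have h4 : x < 2 ^ (q.size * q.size) := by
        have h5 := Nat.lt_size_self q
        have h6 : q.size ≤ q.size * q.size := Nat.le_mul_self _
        have h7 : 2 ^ q.size ≤ 2 ^ (q.size * q.size) := Nat.pow_le_pow_right (by norm_num) h6
        omega
      omega
    · exact ⟨0, Nat.zero_le _, fun h => absurd h hq⟩
  choose W hW1 hW2 using hw
  let V : ℕ → Prop := fun z => D.V z ∨
    ∃ a b, a ≤ x ∧ b ≤ x ∧ ρ a < ρ b ∧ z = P (P x a) b
  obtain ⟨X, hXm⟩ : ∃ X, x < X ∧ (∀ m ∈ C, m < X) ∧ P (P x x) x < X :=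
    ⟨x + C.sup id + P (P x x) x + 1, by omega, fun m hm => by
      have h1 : m ≤ C.sup id := Finset.le_sup (f := id) hm
      omega, by omega⟩
  have hPm : ∀ {a b c d : ℕ}, a ≤ c → b ≤ d → P a b ≤ P c d := by
    intro a b c d h1 h2
    simp only [P]
    have h3 : (a + b) * (a + b) ≤ (c + d) * (c + d) := Nat.mul_le_mul (by omega) (by omega)
    omega
  refine ⟨⟨x, vals, ρ, C, ⟨X, V, fun q => if q < x then D.W q else W q, ?_, ?_⟩⟩,
    hX, hXm.1, hinj, hsp, hXm.2.1, fun z => Iff.rfl, fun q hq => if_pos hq, fun q hq => ?_⟩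
  · rintro z (h | ⟨a, b, ha, hb, -, rfl⟩)
    · have := D.hV z h
      omega
    · exact (hPm (hPm le_rfl ha) hb).trans_lt hXm.2.2
  · intro q
    show (if q < x then D.W q else W q) ≤ _
    split_ifs
    · exact D.hW q
    · exact hW1 q
  · show 2 * P q (if q < x then D.W q else W q) ∉ C
    rw [if_neg (by show ¬ q < x; have : x ≤ q := hq; omega)]
    exact hW2 q hq

/-- the stages -/
noncomputable def out (n : ℕ) (D : Dt) : Out := (exists_out n D).choose

theorem out_ok (n : ℕ) (D : Dt) : Ok n D (out n D) := (exists_out n D).choose_spec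

/-- the parts of the world after `n` stages -/
noncomputable def dt : ℕ → Dt
  | 0 => ⟨0, fun _ => False, fun _ => 0, fun _ h => h.elim, fun _ => Nat.zero_le _⟩
  | n + 1 => (out n (dt n)).D

/-- the data of stage `n` -/
noncomputable def o (n : ℕ) : Out := out n (dt n)

theorem ok (n : ℕ) : Ok n (dt n) (o n) := out_ok n (dt n)

theorem dt_succ (n : ℕ) : dt (n + 1) = (o n).D := rfl

theorem x_lt (n : ℕ) : (o n).x < (o (n + 1)).x := by
  have h1 := (ok n).hx2
  have h2 := (ok (n + 1)).hx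
  rw [dt_succ] at h2
  omega

theorem x_mono {a b : ℕ} (h : a ≤ b) : (o a).x ≤ (o b).x := by
  induction h with
  | refl => exact le_rfl
  | step _ ih => exact ih.trans (x_lt _).le

theorem le_x (n : ℕ) : n ≤ (o n).x := by
  induction n with
  | zero => exact Nat.zero_le _
  | succ n ih =>
    have := x_lt n
    omega

/-- the visible part -/
def Vf (z : ℕ) : Prop := ∃ n, (dt n).V z

/-- the witnesses -/
noncomputable def Wf (q : ℕ) : ℕ := (dt (q + 1)).W q

theorem Wf_le (q : ℕ) : Wf q ≤ 2 ^ (q.size * q.size) := (dt (q + 1)).hW q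

theorem W_stable {n m q : ℕ} (h : n ≤ m) (hq : q < (o n).x) : (dt m).W q = (dt n).W q := by
  induction h with
  | refl => rfl
  | step h ih =>
    rename_i m
    rw [← ih, dt_succ]
    exact (ok m).hW q (hq.trans_le (x_mono h))

theorem Wf_eq {n q : ℕ} (hq : q < (o n).x) : Wf q = (dt n).W q := by
  have h1 : q < (o (q + 1)).x := by
    have := le_x (q + 1)
    omega
  rw [Wf, ← W_stable (Nat.le_max_left (q + 1) n) h1, W_stable (Nat.le_max_right (q + 1) n) hq]

theorem V_mono {n m z : ℕ} (h : n ≤ m) (hz : (dt n).V z) : (dt m).V z := by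
  induction h with
  | refl => exact hz
  | step h ih =>
    rw [dt_succ, (ok _).hV]
    exact Or.inl ih

theorem V_stable {n m z : ℕ} (h : n ≤ m) (hz : z < (o n).x) (hV : (dt m).V z) : (dt n).V z := by
  induction h with
  | refl => exact hV
  | step h ih =>
    rename_i m
    rw [dt_succ, (ok m).hV] at hV
    rcases hV with hV | ⟨a, b, -, -, -, h1⟩
    · exact ih hV
    · exfalso
      have h2 := x_mono h
      have h3 := le_P_left (o m).x a
      have h4 := le_P_left (P (o m).x a) b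
      omega

theorem Vf_iff {n z : ℕ} (hz : z < (o n).x) : Vf z ↔ (dt n).V z := by
  constructor
  · rintro ⟨m, hm⟩
    rcases Nat.le_total n m with h | h
    · exact V_stable h hz hm
    · exact V_mono h hm
  · intro h
    exact ⟨n, h⟩

/-- the oracle -/
def A : ℕ → Prop := Wd Vf Wf

/-- the world of stage `n` -/
def Bn (n : ℕ) : ℕ → Prop := wo (bas (dt n) (o n).x) (o n).x (o n).ρ

theorem agr (n : ℕ) : Agr (o n).C (Bn n) A := by
  intro m hm
  have hmX : m < (dt (n + 1)).X := (ok n).hC m hm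
  have hX1 : (dt (n + 1)).X ≤ (o (n + 1)).x := (ok (n + 1)).hx
  have hKh : ∀ q, q < (o n).x → (Kh Vf Wf q ↔ Kh (dt n).V (dt n).W q) := fun q hq =>
    Wd_congr q (fun z hz => Vf_iff (by omega)) (fun z hz => Wf_eq (by omega)) q le_rfl
  rcases Nat.mod_two_eq_zero_or_one m with hpar | hpar
  · have h1 : A m ↔ ∃ z, m / 2 = P z (Wf z) ∧ Kh Vf Wf z := by
      show ((m % 2 = 0 ∧ _) ∨ (m % 2 = 1 ∧ _)) ↔ _
      simp [hpar]
    have h2 : Bn n m ↔ ∃ q, q < (o n).x ∧ m / 2 = P q ((dt n).W q) ∧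
        Kh (dt n).V (dt n).W q := by
      constructor
      · rintro ((⟨-, h⟩ | ⟨h, -⟩) | ⟨a, b, -, -, -, h⟩)
        · exact h
        · omega
        · simp only [pos] at h
          omega
      · intro h
        exact Or.inl (Or.inl ⟨hpar, h⟩)
    rw [h1, h2]
    constructor
    · rintro ⟨q, h3, h4⟩
      rcases Nat.lt_or_ge q (o n).x with h5 | h5
      · exact ⟨q, h5, by rw [← Wf_eq h5]; exact h3, (hKh q h5).1 h4⟩
      · exfalso
        have h6 := le_P_left q (Wf q)
        have h7 : q < (o (n + 1)).x := by omega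
        have h8 := (ok n).hW2 q h5
        rw [← dt_succ, ← Wf_eq h7, ← h3] at h8
        apply h8
        have h9 : 2 * (m / 2) = m := by omega
        rw [h9]
        exact hm
    · rintro ⟨q, h5, h3, h4⟩
      exact ⟨q, by rw [Wf_eq h5]; exact h3, (hKh q h5).2 h4⟩
  · have h1 : A m ↔ Vf (m / 2) := by
      show ((m % 2 = 0 ∧ _) ∨ (m % 2 = 1 ∧ _)) ↔ _
      simp [hpar]
    have h2 : Bn n m ↔ ((dt n).V (m / 2) ∨ ∃ a b, a ≤ (o n).x ∧ b ≤ (o n).x ∧
        (o n).ρ a < (o n).ρ b ∧ m / 2 = P (P (o n).x a) b) := by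
      constructor
      · rintro ((⟨h, -⟩ | ⟨-, h⟩) | ⟨a, b, h3, h4, h5, h⟩)
        · omega
        · exact Or.inl h
        · refine Or.inr ⟨a, b, h3, h4, h5, ?_⟩
          simp only [pos] at h
          omega
      · rintro (h | ⟨a, b, h3, h4, h5, h⟩)
        · exact Or.inl (Or.inr ⟨hpar, h⟩)
        · refine Or.inr ⟨a, b, h3, h4, h5, ?_⟩
          simp only [pos]
          omega
    rw [h1, h2, Vf_iff (n := n + 1) (by omega), dt_succ, (ok n).hV]

end Pool.Agent.V8H59.CF
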