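import Pool.Agent.V8H59.CF.L

/-!
# The model
-/

set_option autoImplicit false

namespace Pool.Agent.V8H59.CF

open Pool.Agent.TH686.BA Pool.Agent.V8H57.BX
open Filter

/-- a nonprincipal ultrafilter -/
noncomputable abbrev U : Ultrafilter ℕ := hyperfilter ℕ

/-- element `i` at stage `n` -/
noncomputable def vl (i n : ℕ) : ℕ := (o n).vals i

/-- germs -/
abbrev Gm : Type := Germ (U : Filter ℕ) ℕ

/-- the elements of the model -/
def Car : Type := {g : Gm // ∃ i, g = ((vl i : ℕ → ℕ) : Gm)}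

/-- element `i` -/
noncomputable def mk (i : ℕ) : Car := ⟨((vl i : ℕ → ℕ) : Gm), i, rfl⟩

theorem rep (g : Car) : ∃ i, g = mk i := by
  obtain ⟨g, i, rfl⟩ := g
  exact ⟨i, rfl⟩

theorem mk_eq {i j : ℕ} : mk i = mk j ↔ ∀ᶠ n in (U : Filter ℕ), vl i n = vl j n :=
  ⟨fun h => Germ.coe_eq.1 (congrArg (fun g : Car => g.1) h), fun h => Subtype.ext (Germ.coe_eq.2 h)⟩

/-- the admissible worlds of stage `n` -/
abbrev Fn (n : ℕ) : (ℕ → Prop) → Prop := Fam (bas (dt n) (o n).x) (o n).x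

theorem fn_bn (n : ℕ) : Fn n (Bn n) := ⟨(o n).ρ, (ok n).hinj, rfl⟩

theorem ev_gt (j : ℕ) : ∀ᶠ n in (U : Filter ℕ), j < n := by
  have h1 : (U : Filter ℕ) ≤ atTop := by
    rw [← Nat.cofinite_eq_atTop]
    exact hyperfilter_le_cofinite
  exact h1 (Ioi_mem_atTop j)

theorem exists_el (i : Ins) : ∃ j, ∀ᶠ n in (U : Filter ℕ),
    Sp (Fn n) (o n).x i (o n).vals (Bn n) (o n).C (vl j n) := by
  obtain ⟨j, hj, rfl⟩ := exists_ins i (Finset.univ.sup i.idx + i.a + 1)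
  refine ⟨j, (ev_gt j).mono fun n hn => ?_⟩
  refine (ok n).hsp j hn (fun b => ?_) (by omega)
  have h1 : (ins j).idx b ≤ Finset.univ.sup (ins j).idx := Finset.le_sup (Finset.mem_univ b)
  omega

/-- the values of a tuple of elements at stage `n` -/
noncomputable abbrev vv {k : ℕ} (idx : Fin k → ℕ) (n : ℕ) : Fin k → ℕ := fun a => vl (idx a) n

theorem vv_cons {k : ℕ} (j : ℕ) (idx : Fin k → ℕ) (n : ℕ) :
    vv (Fin.cons (α := fun _ => ℕ) j idx) n = cn (vl j n) (vv idx n) := by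
  funext a
  refine Fin.cases rfl (fun _ => rfl) a

theorem el_term {k : ℕ} (t : Tm k) (idx : Fin k → ℕ) :
    ∃ j, ∀ᶠ n in (U : Filter ℕ), vl j n = ev t (vv idx n) := by
  obtain ⟨j, hj⟩ := exists_el ⟨1, k, t, .eq (.var 0) (sub (fun i => .var i.succ) t),
    .eq .zero .zero, idx, 0⟩
  refine ⟨j, hj.mono fun n hn => ?_⟩
  have h1 := hn.s1 rfl (.eq _ _) (Bn n) (fn_bn n) Agr.rfl'
  have h2 : ∀ w : ℕ, evF (Bn n) (.eq (.var 0) (sub (fun i => .var i.succ) t)) (cn w (vv idx n)) ↔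
      w = ev t (vv idx n) := by
    intro w
    have h3 : ev (sub (fun i => .var i.succ) t) (cn w (vv idx n)) = ev t (vv idx n) :=
      eval_sub natStr (fun i => .var i.succ) t (cn w (vv idx n))
    show w = ev (sub (fun i => .var i.succ) t) (cn w (vv idx n)) ↔ _
    rw [h3]
  have h4 := h1 ⟨ev t (vv idx n), le_rfl, (h2 _).2 rfl⟩
  exact (h2 _).1 h4.2

/-- unary operations -/
noncomputable def op1 (f : ℕ → ℕ) (hf : ∀ i, ∃ j, ∀ᶠ n in (U : Filter ℕ), vl j n = f (vl i n))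
    (g : Car) : Car := ⟨Germ.map f g.1, by
  obtain ⟨g, i, rfl⟩ := g
  obtain ⟨j, hj⟩ := hf i
  refine ⟨j, ?_⟩
  rw [Germ.map_coe]
  exact Germ.coe_eq.2 (hj.mono fun n hn => hn.symm)⟩

/-- binary operations -/
noncomputable def op2 (f : ℕ → ℕ → ℕ)
    (hf : ∀ i i', ∃ j, ∀ᶠ n in (U : Filter ℕ), vl j n = f (vl i n) (vl i' n))
    (g h : Car) : Car := ⟨Germ.map₂ f g.1 h.1, by
  obtain ⟨g, i, rfl⟩ := g
  obtain ⟨h, i', rfl⟩ := h
  obtain ⟨j, hj⟩ := hf i i'
  refine ⟨j, ?_⟩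
  rw [Germ.map₂_coe]
  exact Germ.coe_eq.2 (hj.mono fun n hn => hn.symm)⟩

/-- the model -/
noncomputable def MS : StrR where
  carrier := Car
  zero := ⟨((fun _ => 0 : ℕ → ℕ) : Gm), by
    obtain ⟨j, hj⟩ := el_term (k := 0) .zero (fun i => i.elim0)
    exact ⟨j, Germ.coe_eq.2 (hj.mono fun n hn => hn.symm)⟩⟩
  succ := op1 (fun x => x + 1) fun i => el_term (k := 1) (.succ (.var 0)) (fun _ => i)
  add := op2 (fun x y => x + y) fun i i' => el_term (k := 2) (.add (.var 0) (.var 1)) ![i, i']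
  mul := op2 (fun x y => x * y) fun i i' => el_term (k := 2) (.mul (.var 0) (.var 1)) ![i, i']
  half := op1 (fun x => x / 2) fun i => el_term (k := 1) (.half (.var 0)) (fun _ => i)
  len := op1 (fun x => x.size) fun i => el_term (k := 1) (.len (.var 0)) (fun _ => i)
  smash := op2 (fun x y => 2 ^ (x.size * y.size)) fun i i' =>
    el_term (k := 2) (.smash (.var 0) (.var 1)) ![i, i']
  le := fun g h => g.1 ≤ h.1
  rel := fun g => ∃ f : ℕ → ℕ, g.1 = ((f : ℕ → ℕ) : Gm) ∧ ∀ᶠ n in (U : Filter ℕ), Bn n (f n)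

/-- a tuple of elements -/
noncomputable abbrev mm {k : ℕ} (idx : Fin k → ℕ) : Fin k → MS.carrier := fun a => mk (idx a)

theorem mm_cons {k : ℕ} (j : ℕ) (idx : Fin k → ℕ) :
    (Fin.cons (α := fun _ => MS.carrier) (mk j) (mm idx)) =
      mm (Fin.cons (α := fun _ => ℕ) j idx) := by
  funext a
  refine Fin.cases rfl (fun _ => rfl) a

theorem eval_tm {k : ℕ} (t : Tm k) (idx : Fin k → ℕ) :
    (t.eval MS.toStr (mm idx)).1 = ((fun n => ev t (vv idx n) : ℕ → ℕ) : Gm) := by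
  induction t with
  | var i => rfl
  | zero => rfl
  | succ t ih =>
    show Germ.map _ (t.eval MS.toStr (mm idx)).1 = _
    rw [ih]
    rfl
  | add s t ih1 ih2 =>
    show Germ.map₂ _ (s.eval MS.toStr (mm idx)).1 (t.eval MS.toStr (mm idx)).1 = _
    rw [ih1, ih2]
    rfl
  | mul s t ih1 ih2 =>
    show Germ.map₂ _ (s.eval MS.toStr (mm idx)).1 (t.eval MS.toStr (mm idx)).1 = _
    rw [ih1, ih2]
    rfl
  | half t ih =>
    show Germ.map _ (t.eval MS.toStr (mm idx)).1 = _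
    rw [ih]
    rfl
  | len t ih =>
    show Germ.map _ (t.eval MS.toStr (mm idx)).1 = _
    rw [ih]
    rfl
  | smash s t ih1 ih2 =>
    show Germ.map₂ (fun x y : ℕ => 2 ^ (x.size * y.size)) (s.eval MS.toStr (mm idx)).1
      (t.eval MS.toStr (mm idx)).1 = _
    rw [ih1, ih2]
    rfl

theorem le_tm {k : ℕ} (t : Tm k) (idx : Fin k → ℕ) (j : ℕ) :
    MS.le (mk j) (t.eval MS.toStr (mm idx)) ↔
      ∀ᶠ n in (U : Filter ℕ), vl j n ≤ ev t (vv idx n) := by
  show (mk j).1 ≤ (t.eval MS.toStr (mm idx)).1 ↔ _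
  rw [eval_tm]
  exact Germ.coe_le

/-- truth in the model is truth at almost all stages -/
def TL {k : ℕ} (φ : FR k) : Prop := ∀ idx : Fin k → ℕ,
  φ.eval MS (mm idx) ↔ ∀ᶠ n in (U : Filter ℕ), evF (Bn n) φ (vv idx n)

theorem TL.congr {k : ℕ} {φ ψ : FR k} (h : TL φ)
    (he : ∀ (M : StrR) (v : Fin k → M.carrier), φ.eval M v ↔ ψ.eval M v) : TL ψ := by
  intro idx
  rw [← he MS, h idx]
  refine ⟨fun h => h.mono fun n hn => (he _ _).1 hn, fun h => h.mono fun n hn => (he _ _).2 hn⟩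

theorem tl_eq {k : ℕ} (s t : Tm k) : TL (.eq s t) := by
  intro idx
  show s.eval MS.toStr (mm idx) = t.eval MS.toStr (mm idx) ↔ _
  constructor
  · intro h
    have h1 := congrArg (fun g : Car => g.1) h
    have h2 : (s.eval MS.toStr (mm idx)).1 = (t.eval MS.toStr (mm idx)).1 := h1
    rw [eval_tm, eval_tm] at h2
    exact Germ.coe_eq.1 h2
  · intro h
    refine Subtype.ext ?_
    rw [eval_tm, eval_tm]
    exact Germ.coe_eq.2 h

theorem tl_le {k : ℕ} (s t : Tm k) : TL (.le s t) := by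
  intro idx
  show (s.eval MS.toStr (mm idx)).1 ≤ (t.eval MS.toStr (mm idx)).1 ↔ _
  rw [eval_tm, eval_tm]
  exact Germ.coe_le

theorem tl_rel {k : ℕ} (t : Tm k) : TL (.rel t) := by
  intro idx
  show (∃ f : ℕ → ℕ, (t.eval MS.toStr (mm idx)).1 = ((f : ℕ → ℕ) : Gm) ∧
    ∀ᶠ n in (U : Filter ℕ), Bn n (f n)) ↔ ∀ᶠ n in (U : Filter ℕ), Bn n (ev t (vv idx n))
  rw [eval_tm]
  constructor
  · rintro ⟨f, hf, h⟩
    have h1 := Germ.coe_eq.1 hf
    filter_upwards [h, h1] with n h2 h3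
    rw [h3]
    exact h2
  · intro h
    exact ⟨_, rfl, h⟩

theorem tl_not {k : ℕ} {φ : FR k} (h : TL φ) : TL (.not φ) := by
  intro idx
  show (¬ φ.eval MS (mm idx)) ↔ ∀ᶠ n in (U : Filter ℕ), ¬ evF (Bn n) φ (vv idx n)
  rw [Ultrafilter.eventually_not, h idx]

theorem tl_and {k : ℕ} {φ ψ : FR k} (h : TL φ) (h' : TL ψ) : TL (.and φ ψ) := by
  intro idx
  show (φ.eval MS (mm idx) ∧ ψ.eval MS (mm idx)) ↔
    ∀ᶠ n in (U : Filter ℕ), evF (Bn n) φ (vv idx n) ∧ evF (Bn n) ψ (vv idx n)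
  rw [eventually_and, h idx, h' idx]

theorem tl_or {k : ℕ} {φ ψ : FR k} (h : TL φ) (h' : TL ψ) : TL (.or φ ψ) := by
  intro idx
  show (φ.eval MS (mm idx) ∨ ψ.eval MS (mm idx)) ↔
    ∀ᶠ n in (U : Filter ℕ), evF (Bn n) φ (vv idx n) ∨ evF (Bn n) ψ (vv idx n)
  rw [Ultrafilter.eventually_or, h idx, h' idx]

/-- witnesses are elements of the model -/
def Wit {k : ℕ} (t : Tm k) (φ : FR (k + 1)) : Prop := ∀ idx : Fin k → ℕ, ∃ j,
  ∀ᶠ n in (U : Filter ℕ), (∃ w, w ≤ ev t (vv idx n) ∧ evF (Bn n) φ (cn w (vv idx n))) →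
    vl j n ≤ ev t (vv idx n) ∧ evF (Bn n) φ (cn (vl j n) (vv idx n))

theorem tl_ex {k : ℕ} {t : Tm k} {φ : FR (k + 1)} (h : TL φ) (hw : Wit t φ) :
    TL (.ex t φ) := by
  intro idx
  show (∃ y : MS.carrier, MS.le y (t.eval MS.toStr (mm idx)) ∧
    φ.eval MS (Fin.cons (α := fun _ => MS.carrier) y (mm idx))) ↔
    ∀ᶠ n in (U : Filter ℕ), ∃ w, w ≤ ev t (vv idx n) ∧ evF (Bn n) φ (cn w (vv idx n))
  constructor
  · rintro ⟨y, h1, h2⟩
    obtain ⟨j, rfl⟩ := rep y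
    have h3 := (le_tm t idx j).1 h1
    rw [mm_cons, h _] at h2
    filter_upwards [h3, h2] with n h4 h5
    rw [vv_cons] at h5
    exact ⟨_, h4, h5⟩
  · intro h1
    obtain ⟨j, hj⟩ := hw idx
    have h2 : ∀ᶠ n in (U : Filter ℕ), vl j n ≤ ev t (vv idx n) ∧
        evF (Bn n) φ (cn (vl j n) (vv idx n)) := by
      filter_upwards [h1, hj] with n h3 h4
      exact h4 h3
    refine ⟨mk j, (le_tm t idx j).2 (h2.mono fun n hn => hn.1), ?_⟩
    rw [mm_cons, h _]
    refine h2.mono fun n hn => ?_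
    rw [vv_cons]
    exact hn.2

theorem tl_all {k : ℕ} {t : Tm k} {φ : FR (k + 1)} (h : TL φ) (hw : Wit t (.not φ)) :
    TL (.all t φ) := by
  refine (tl_not (tl_ex (tl_not h) hw)).congr fun M v => ?_
  show (¬ ∃ y, M.le y (t.eval M.toStr v) ∧
    ¬ φ.eval M (Fin.cons (α := fun _ => M.carrier) y v)) ↔
    ∀ y, M.le y (t.eval M.toStr v) → φ.eval M (Fin.cons (α := fun _ => M.carrier) y v)
  push Not
  exact Iff.rfl

theorem wit1 {k : ℕ} (t : Tm k) {φ : FR (k + 1)} (h : Lv true 1 φ) : Wit t φ := by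
  intro idx
  obtain ⟨j, hj⟩ := exists_el ⟨1, k, t, φ, .eq .zero .zero, idx, 0⟩
  exact ⟨j, hj.mono fun n hn hex => hn.s1 rfl h (Bn n) (fn_bn n) Agr.rfl' hex⟩

theorem wit2 {k : ℕ} (t : Tm k) {φ : FR (k + 1)} (h : Lv true 1 φ) :
    Wit (.len t) (.not φ) := by
  intro idx
  obtain ⟨j, hj⟩ := exists_el ⟨2, k, t, φ, .eq .zero .zero, idx, 0⟩
  exact ⟨j, hj.mono fun n hn hex => hn.s2 rfl h (Bn n) (fn_bn n) Agr.rfl' hex⟩

theorem wit3 {k : ℕ} (t : Tm k) {φ : FR (k + 1)} (h : Lv false 1 φ) :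
    Wit (.len t) φ := by
  intro idx
  obtain ⟨j, hj⟩ := wit2 t (φ := .not φ) (.not h) idx
  refine ⟨j, hj.mono fun n hn => ?_⟩
  rintro ⟨w, h1, h2⟩
  have h3 := hn ⟨w, h1, fun h => h h2⟩
  exact ⟨h3.1, not_not.1 h3.2⟩

theorem lv1 {b : Bool} {i k : ℕ} {φ : FR k} (h : Lv b i φ) (hi : i ≤ 1) : Lv b 1 φ := by
  rcases Nat.lt_or_ge i 1 with h1 | h1
  · obtain rfl : i = 0 := by omega
    exact .up h
  · obtain rfl : i = 1 := by omega
    exact h

theorem tl {b : Bool} {i k : ℕ} {φ : FR k} (h : Lv b i φ) : i ≤ 1 → TL φ := by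
  induction h with
  | eq s t => exact fun _ => tl_eq s t
  | le s t => exact fun _ => tl_le s t
  | rel t => exact fun _ => tl_rel t
  | not _ ih => exact fun hi => tl_not (ih hi)
  | and _ _ ih1 ih2 => exact fun hi => tl_and (ih1 hi) (ih2 hi)
  | or _ _ ih1 ih2 => exact fun hi => tl_or (ih1 hi) (ih2 hi)
  | sall t h ih =>
    rename_i b _ _ _
    intro hi
    cases b
    · exact tl_all (ih hi) (wit1 _ (.not (lv1 h hi)))
    · exact tl_all (ih hi) (wit2 t (lv1 h hi))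
  | sex t h ih =>
    rename_i b _ _ _
    intro hi
    cases b
    · exact tl_ex (ih hi) (wit3 t (lv1 h hi))
    · exact tl_ex (ih hi) (wit1 _ (lv1 h hi))
  | all t h ih => exact fun hi => tl_all (ih hi) (wit1 t (.not (lv1 h hi)))
  | ex t h ih => exact fun hi => tl_ex (ih hi) (wit1 t (lv1 h hi))
  | up _ ih => exact fun hi => ih (by omega)

theorem exists_idx {k : ℕ} (v : Fin k → MS.carrier) : ∃ idx, v = mm idx := by
  have h : ∀ a, ∃ i, v a = mk i := fun a => rep (v a)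
  choose idx h using h
  exact ⟨idx, funext h⟩

/-- the true `Πᵇ₁`-formulas hold in the model -/
theorem true1 {k : ℕ} (θ : FR k) (h : Lv false 1 θ) (ht : Tr A θ) (v : Fin k → MS.carrier) :
    θ.eval MS v := by
  obtain ⟨idx, rfl⟩ := exists_idx v
  rw [tl h le_rfl idx]
  obtain ⟨j, hj⟩ := exists_el ⟨5, k, .zero, .eq .zero .zero, θ, idx, 0⟩
  refine hj.mono fun n hn => ?_
  rcases hn.s5 rfl h with h1 | h1
  · exact h1 (Bn n) (fn_bn n) Agr.rfl'
  · exact absurd (ht _) (h1 A (agr n))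

theorem mk_zero : ∃ j, mk j = MS.zero ∧ ∀ᶠ n in (U : Filter ℕ), vl j n = 0 := by
  obtain ⟨j, hj⟩ := el_term (k := 0) .zero (fun i => i.elim0)
  exact ⟨j, Subtype.ext (Germ.coe_eq.2 hj), hj⟩

theorem mk_succ (i : ℕ) : ∃ j, mk j = MS.succ (mk i) ∧
    ∀ᶠ n in (U : Filter ℕ), vl j n = vl i n + 1 := by
  obtain ⟨j, hj⟩ := el_term (k := 1) (.succ (.var 0)) (fun _ => i)
  exact ⟨j, Subtype.ext (Germ.coe_eq.2 hj), hj⟩

/-- induction for the formulas of level one -/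
theorem ind1 {k : ℕ} (φ : FR (k + 1)) (h : Lv true 1 φ) : MS.Ind φ := by
  intro v h0 hs x
  obtain ⟨idx, rfl⟩ := exists_idx v
  obtain ⟨jb, rfl⟩ := rep x
  obtain ⟨j0, hj0, hj0'⟩ := mk_zero
  obtain ⟨j, hj⟩ := exists_el ⟨3, k, .zero, φ, .eq .zero .zero, idx, jb⟩
  have hT := tl h le_rfl
  rw [← hj0, mm_cons, hT] at h0
  have h1 : ∀ᶠ n in (U : Filter ℕ), vl j n ≤ vl jb n ∧
      evF (Bn n) φ (cn (vl j n) (vv idx n)) ∧
      (vl j n < vl jb n → ¬ evF (Bn n) φ (cn (vl j n + 1) (vv idx n))) := by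
    filter_upwards [h0, hj0', hj] with n h2 h3 h4
    rw [vv_cons, h3] at h2
    exact h4.s3 rfl h (Bn n) (fn_bn n) Agr.rfl' h2
  have h2 : φ.eval MS (Fin.cons (α := fun _ => MS.carrier) (mk j) (mm idx)) := by
    rw [mm_cons, hT]
    refine h1.mono fun n hn => ?_
    rw [vv_cons]
    exact hn.2.1
  obtain ⟨j', hj', hj''⟩ := mk_succ j
  have h3 := hs _ h2
  rw [← hj', mm_cons, hT] at h3
  have h4 : mk j = mk jb := by
    rw [mk_eq]
    filter_upwards [h1, h3, hj''] with n h5 h6 h7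
    rw [vv_cons, h7] at h6
    by_contra h8
    exact h5.2.2 (by omega) h6
  rw [← h4]
  exact h2

/-- the formula: `y` is before `z` in the order at `x` -/
def RO {k : ℕ} (x y z : Tm k) : FR k := .rel (.succ (.mul two (PT (PT x y) z)))

/-- the formula: the order at `x` is a strict linear order of the numbers up to `x` -/
def lin : FR 1 :=
  .and (.all (.var 0) (.not (RO (.var 1) (.var 0) (.var 0))))
    (.and (.all (.var 0) (.all (.var 1) (.all (.var 2) (imp (.and (RO (.var 3) (.var 2) (.var 1))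
      (RO (.var 3) (.var 1) (.var 0))) (RO (.var 3) (.var 2) (.var 0))))))
    (.all (.var 0) (.all (.var 1) (.or (.eq (.var 1) (.var 0))
      (.or (RO (.var 2) (.var 1) (.var 0)) (RO (.var 2) (.var 0) (.var 1)))))))

/-- the formula: if the order at `x` is a strict linear order of the numbers up to `x`, then it
has a least element -/
def mini : FR 1 := .or (.not lin) (.ex (.var 0) (.all (.var 1)
  (.or (.eq (.var 0) (.var 1)) (RO (.var 2) (.var 1) (.var 0)))))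

/-- the formula: some `y` is least among the numbers up to `u`, for the order at `x` -/
def psi : FR 2 := .ex (.var 1) (.all (.var 2) (imp (.le (.var 0) (.var 2))
  (.or (.eq (.var 0) (.var 1)) (RO (.var 3) (.var 1) (.var 0)))))

theorem lv_lin : Lv false 1 lin :=
  .and (.all _ (.not (.rel _))) (.and (.all _ (.all _ (.all _ (.or (.not (.and (.rel _) (.rel _)))
    (.rel _))))) (.all _ (.all _ (.or (.eq _ _) (.or (.rel _) (.rel _))))))

theorem lv_mini : Lv true 2 mini :=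
  .or (.up (.not (b := true) lv_lin)) (.ex _ (.up (i := 1) (b := false)
    (.all _ (.or (.eq _ _) (.rel _)))))

theorem lv_psi : Lv true 2 psi :=
  .ex _ (.up (i := 1) (b := false) (.all _ (.or (.not (.le _ _)) (.or (.eq _ _) (.rel _)))))

/-- the order in a structure -/
def OR (M : StrR) (x y z : M.carrier) : Prop :=
  M.rel (M.succ (M.mul (twoM M.toStr) (PM M.toStr (PM M.toStr x y) z)))

theorem lin_iff (M : StrR) (v : Fin 1 → M.carrier) : lin.eval M v ↔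
    (∀ a, M.le a (v 0) → ¬ OR M (v 0) a a) ∧
    (∀ a, M.le a (v 0) → ∀ b, M.le b (v 0) → ∀ c, M.le c (v 0) →
      (¬ (OR M (v 0) a b ∧ OR M (v 0) b c) ∨ OR M (v 0) a c)) ∧
    (∀ a, M.le a (v 0) → ∀ b, M.le b (v 0) → (a = b ∨ OR M (v 0) a b ∨ OR M (v 0) b a)) :=
  Iff.rfl

theorem mini_iff (M : StrR) (v : Fin 1 → M.carrier) : mini.eval M v ↔ (¬ lin.eval M v ∨
    ∃ y, M.le y (v 0) ∧ ∀ z, M.le z (v 0) → (z = y ∨ OR M (v 0) y z)) := Iff.rfl

theorem psi_iff (M : StrR) (u : M.carrier) (v : Fin 1 → M.carrier) :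
    psi.eval M (Fin.cons (α := fun _ => M.carrier) u v) ↔
      ∃ y, M.le y (v 0) ∧ ∀ z, M.le z (v 0) → (¬ M.le z u ∨ (z = y ∨ OR M (v 0) y z)) := Iff.rfl

/-- the formula `mini` holds in all models of `T^2_2` -/
theorem mini_true (M : StrR) (hM : M.IsModelT 2) (v : Fin 1 → M.carrier) : mini.eval M v := by
  classical
  rw [mini_iff]
  by_cases hl : lin.eval M v
  swap
  · exact Or.inl hl
  right
  rw [lin_iff] at hl
  obtain ⟨-, htr, htot⟩ := hl
  have hb := hM.basic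
  have h := hM.ind 1 psi lv_psi v ?_ ?_ (v 0)
  · rw [psi_iff] at h
    obtain ⟨y, hy, h⟩ := h
    exact ⟨y, hy, fun z hz => (h z hz).resolve_left fun h' => h' hz⟩
  · rw [psi_iff]
    refine ⟨M.zero, hb.b3 _, fun z hz => ?_⟩
    by_cases h0 : M.le z M.zero
    · exact Or.inr (Or.inl (hb.b7 _ _ ⟨h0, hb.b3 _⟩))
    · exact Or.inl h0
  · intro u hu
    rw [psi_iff] at hu ⊢
    obtain ⟨y, hy, hy2⟩ := hu
    have hsu : ∀ z, M.le z (M.succ u) → z ≠ M.succ u → M.le z u := by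
      intro z h1 h2
      rcases hb.b6 z u with h3 | h3
      · by_cases h4 : u = z
        · rw [← h4]
          rcases hb.b6 u u with h5 | h5 <;> exact h5
        · exact absurd (hb.b7 _ _ ⟨h1, (hb.b4 _ _).1 ⟨h3, h4⟩⟩) h2
      · exact h3
    by_cases hc : M.le (M.succ u) (v 0) ∧ OR M (v 0) (M.succ u) y
    · refine ⟨M.succ u, hc.1, fun z hz => ?_⟩
      by_cases hz1 : M.le z (M.succ u)
      swap
      · exact Or.inl hz1
      right
      by_cases hz2 : z = M.succ u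
      · exact Or.inl hz2
      right
      rcases hy2 z hz with h1 | h1 | h1
      · exact absurd (hsu z hz1 hz2) h1
      · rw [h1]
        exact hc.2
      · exact (htr _ hc.1 _ hy _ hz).resolve_left fun h' => h' ⟨hc.2, h1⟩
    · refine ⟨y, hy, fun z hz => ?_⟩
      by_cases hz1 : M.le z (M.succ u)
      swap
      · exact Or.inl hz1
      right
      by_cases hz2 : z = M.succ u
      · rcases htot _ hy _ hz with h1 | h1 | h1
        · exact Or.inl h1.symm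
        · exact Or.inr h1
        · rw [hz2] at h1 hz
          exact absurd ⟨hz, h1⟩ hc
      · exact (hy2 z hz).resolve_left fun h' => h' (hsu z hz1 hz2)

theorem exists_x : ∃ j, ∀ᶠ n in (U : Filter ℕ), vl j n = (o n).x := by
  obtain ⟨j, hj⟩ := exists_el ⟨0, 0, .zero, .eq .zero .zero, .eq .zero .zero,
    fun i => i.elim0, 0⟩
  exact ⟨j, hj.mono fun n hn => hn.s0 rfl⟩

theorem lin_nat (n : ℕ) : evF (Bn n) lin (fun _ => (o n).x) := by
  have hp : ∀ {a b : ℕ}, a ≤ (o n).x → b ≤ (o n).x →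
      (Bn n (pos (o n).x a b) ↔ (o n).ρ a < (o n).ρ b) := fun ha hb =>
    wo_pos (bas_pos (dt n) (ok n).hx) (o n).ρ ha hb
  refine (lin_iff (natR (Bn n)) (fun _ => (o n).x)).2 ⟨?_, ?_, ?_⟩
  · intro a ha
    show ¬ Bn n (pos (o n).x a a)
    rw [hp ha ha]
    exact lt_irrefl _
  · intro a ha b hb c hc
    show ¬ (Bn n (pos (o n).x a b) ∧ Bn n (pos (o n).x b c)) ∨ Bn n (pos (o n).x a c)
    rw [hp ha hb, hp hb hc, hp ha hc]
    by_cases h : (o n).ρ a < (o n).ρ c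
    · exact Or.inr h
    · exact Or.inl fun h' => h (h'.1.trans h'.2)
  · intro a ha b hb
    show a = b ∨ Bn n (pos (o n).x a b) ∨ Bn n (pos (o n).x b a)
    rw [hp ha hb, hp hb ha]
    rcases lt_trichotomy ((o n).ρ a) ((o n).ρ b) with h | h | h
    · exact Or.inr (Or.inl h)
    · exact Or.inl ((ok n).hinj a b ha hb h)
    · exact Or.inr (Or.inr h)

/-- the formula `mini` fails in the model -/
theorem mini_false : ∃ v : Fin 1 → MS.carrier, ¬ mini.eval MS v := by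
  obtain ⟨jx, hx⟩ := exists_x
  refine ⟨mm fun _ : Fin 1 => jx, fun h => ?_⟩
  rw [mini_iff] at h
  rcases h with h | ⟨y, hy, h⟩
  · apply h
    rw [tl lv_lin le_rfl]
    refine hx.mono fun n hn => ?_
    have h1 : vv (fun _ : Fin 1 => jx) n = fun _ => (o n).x := funext fun _ => hn
    rw [h1]
    exact lin_nat n
  · obtain ⟨j, rfl⟩ := rep y
    have hj : ∀ᶠ n in (U : Filter ℕ), vl j n ≤ vl jx n := Germ.coe_le.1 hy
    obtain ⟨j2, hj2⟩ := exists_el ⟨4, 0, .zero, .eq .zero .zero, .eq .zero .zero,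
      fun i => i.elim0, j⟩
    have h2 : ∀ᶠ n in (U : Filter ℕ), vl j2 n ≤ (o n).x ∧ vl j2 n ≠ vl j n ∧
        Bn n (pos (o n).x (vl j2 n) (vl j n)) := by
      filter_upwards [hj, hj2, hx] with n h3 h4 h5
      rw [h5] at h3
      obtain ⟨h6, h7, h8⟩ := h4.s4 rfl h3
      exact ⟨h6, h7, h8 (Bn n) Agr.rfl'⟩
    rcases h (mk j2) (Germ.coe_le.2 (by
      filter_upwards [h2, hx] with n h3 h4
      rw [h4]
      exact h3.1)) with h3 | h3
    · obtain ⟨n, h4, h5⟩ := ((mk_eq.1 h3).and h2).exists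
      exact h5.2.1 h4
    · have h4 : (RO (.var 2) (.var 1) (.var 0) : FR 3).eval MS (mm ![j2, j, jx]) := h3
      have h5 : ∀ᶠ n in (U : Filter ℕ), Bn n (pos (vl jx n) (vl j n) (vl j2 n)) :=
        (tl_rel _ ![j2, j, jx]).1 h4
      obtain ⟨n, ⟨⟨h6, h7⟩, h8⟩, h9⟩ := (((h5.and h2).and hx).and hj).exists
      rw [h8] at h6 h9
      have h10 : (o n).ρ (vl j n) < (o n).ρ (vl j2 n) :=
        (wo_pos (bas_pos (dt n) (ok n).hx) (o n).ρ h9 h7.1).1 h6
      have h11 : (o n).ρ (vl j2 n) < (o n).ρ (vl j n) :=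
        (wo_pos (bas_pos (dt n) (ok n).hx) (o n).ρ h7.1 h9).1 h7.2.2
      exact lt_asymm h10 h11

end Pool.Agent.V8H59.CF
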