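import Pool.Agent.V8H59.CF.B

/-!
# Structures with the true `Σᵇ₁`-formulas
-/

set_option autoImplicit false

namespace Pool.Agent.V8H59.CF

open Pool.Agent.TH686.BA Pool.Agent.V8H57.BX

/-- all true `Σᵇ₁`-formulas hold in `M` -/
def Sat (M : StrR) (B : ℕ → Prop) : Prop := ∀ (n : ℕ) (θ : FR n), Lv true 1 θ → Tr B θ →
  ∀ v : Fin n → M.carrier, θ.eval M v

variable {M : StrR} {V : ℕ → Prop} {W : ℕ → ℕ}

/-- one more variable -/
abbrev lf {n : ℕ} (q : Tm n) : Tm (n + 1) := sub (fun i => .var i.succ) q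

theorem eval_lf (M : Str) {n : ℕ} (q : Tm n) (w : M.carrier) (v : Fin n → M.carrier) :
    (lf q).eval M (Fin.cons (α := fun _ => M.carrier) w v) = q.eval M v :=
  eval_sub M _ q _

theorem sgF_nat (hW : ∀ q, W q ≤ 2 ^ (q.size * q.size)) {n : ℕ} (φ : FR n) (v : Fin n → ℕ) :
    evF (Wd V W) (sgF φ) v ↔ evF (Wd V W) φ v := (sgF_iff V W hW φ v).symm

theorem ev_lf {n : ℕ} (t : Tm n) (y : ℕ) (u : Fin n → ℕ) : ev (lf t) (cn y u) = ev t u :=
  eval_lf natStr _ _ _

theorem lf_nat (hW : ∀ q, W q ≤ 2 ^ (q.size * q.size)) {n : ℕ} (ψ : FR n) (y : ℕ)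
    (u : Fin n → ℕ) :
    evF (Wd V W) (sgT (lf (qT ψ))) (cn y u) ↔ evF (Wd V W) ψ u := by
  have h1 := eval_sgT (natR (Wd V W)) (lf (qT ψ)) (cn y u)
  have h2 : (lf (qT ψ)).eval natStr (cn y u) = (qT ψ).eval natStr u := eval_lf natStr _ _ _
  have h3 := eval_sgT (natR (Wd V W)) (qT ψ) u
  exact h1.trans ((iff_of_eq (congrArg (SgM (natR (Wd V W))) h2)).trans
    (h3.symm.trans (sgF_nat hW ψ u)))

theorem excl (hW : ∀ q, W q ≤ 2 ^ (q.size * q.size)) (hM : Sat M (Wd V W)) {n : ℕ} (φ : FR n)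
    (v : Fin n → M.carrier) (h1 : (sgF φ).eval M v) (h2 : (sgF (.not φ)).eval M v) : False := by
  rw [sgF, eval_sgT] at h1 h2
  obtain ⟨w, h3, h4⟩ := h1
  obtain ⟨w', h5, h6⟩ := h2
  have h := hM (n + 2) (.or (.not (.and (.le (.var 1) (.smash (lf (lf (qT φ))) (lf (lf (qT φ)))))
    (.rel (.mul two (PT (lf (lf (qT φ))) (.var 1))))))
    (.not (.and (.le (.var 0) (.smash (lf (lf (qT (.not φ)))) (lf (lf (qT (.not φ))))))
    (.rel (.mul two (PT (lf (lf (qT (.not φ)))) (.var 0)))))))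
    (.or (.not (.and (.le _ _) (.rel _))) (.not (.and (.le _ _) (.rel _)))) ?_
    (Fin.cons (α := fun _ => M.carrier) w' (Fin.cons (α := fun _ => M.carrier) w v))
  · have e1 : ∀ q : Tm n, (lf (lf q)).eval M.toStr
        (Fin.cons (α := fun _ => M.carrier) w' (Fin.cons (α := fun _ => M.carrier) w v)) =
        q.eval M.toStr v := fun q => (eval_lf _ _ _ _).trans (eval_lf _ _ _ _)
    have h' : (¬ (M.le w (M.smash ((lf (lf (qT φ))).eval M.toStr _)
      ((lf (lf (qT φ))).eval M.toStr _)) ∧ M.rel (M.mul (twoM M.toStr) (PM M.toStr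
      ((lf (lf (qT φ))).eval M.toStr _) w)))) ∨ (¬ (M.le w' (M.smash
      ((lf (lf (qT (.not φ)))).eval M.toStr _) ((lf (lf (qT (.not φ)))).eval M.toStr _)) ∧
      M.rel (M.mul (twoM M.toStr) (PM M.toStr ((lf (lf (qT (.not φ)))).eval M.toStr _) w')))) := h
    rw [e1, e1] at h'
    rcases h' with h' | h'
    · exact h' ⟨h3, h4⟩
    · exact h' ⟨h5, h6⟩
  · intro u
    obtain ⟨w', u, rfl⟩ : ∃ (w' : ℕ) (u' : Fin (n + 1) → ℕ),
        u = Fin.cons (α := fun _ => ℕ) w' u' := ⟨u 0, Fin.tail u, (Fin.cons_self_tail u).symm⟩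
    obtain ⟨w, u, rfl⟩ : ∃ (w' : ℕ) (u' : Fin n → ℕ),
        u = Fin.cons (α := fun _ => ℕ) w' u' := ⟨u 0, Fin.tail u, (Fin.cons_self_tail u).symm⟩
    have e1 : ∀ q : Tm n, (lf (lf q)).eval natStr
        (Fin.cons (α := fun _ => ℕ) w' (Fin.cons (α := fun _ => ℕ) w u)) =
        q.eval natStr u := fun q => (eval_lf natStr _ _ _).trans (eval_lf natStr _ _ _)
    show (¬ (natStr.le w (natStr.smash ((lf (lf (qT φ))).eval natStr _)
      ((lf (lf (qT φ))).eval natStr _)) ∧ (natR (Wd V W)).rel (natStr.mul (twoM natStr)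
      (PM natStr ((lf (lf (qT φ))).eval natStr _) w)))) ∨ (¬ (natStr.le w' (natStr.smash
      ((lf (lf (qT (.not φ)))).eval natStr _) ((lf (lf (qT (.not φ)))).eval natStr _)) ∧
      (natR (Wd V W)).rel (natStr.mul (twoM natStr)
      (PM natStr ((lf (lf (qT (.not φ)))).eval natStr _) w'))))
    rw [e1, e1]
    by_contra hcon
    rw [not_or, not_not, not_not] at hcon
    have h7 : evF (Wd V W) (sgF φ) u := (eval_sgT (natR (Wd V W)) (qT φ) u).2 ⟨w, hcon.1⟩
    have h8 : evF (Wd V W) (sgF (.not φ)) u :=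
      (eval_sgT (natR (Wd V W)) (qT (.not φ)) u).2 ⟨w', hcon.2⟩
    rw [sgF_nat hW] at h7 h8
    exact h8 h7

theorem exh (hW : ∀ q, W q ≤ 2 ^ (q.size * q.size)) (hM : Sat M (Wd V W)) {n : ℕ} (φ : FR n)
    (v : Fin n → M.carrier) : (sgF φ).eval M v ∨ (sgF (.not φ)).eval M v :=
  hM n (.or (sgF φ) (sgF (.not φ))) (.or (lv_sgF _) (lv_sgF _)) (fun u => by
    show evF (Wd V W) (sgF φ) u ∨ evF (Wd V W) (sgF (.not φ)) u
    rw [sgF_nat hW, sgF_nat hW]
    exact em _) v

theorem imp_sat (hW : ∀ q, W q ≤ 2 ^ (q.size * q.size)) (hM : Sat M (Wd V W)) {n : ℕ}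
    (φ X : FR n) (hX : Lv true 1 X) (h : ∀ u, evF (Wd V W) φ u → evF (Wd V W) X u)
    (v : Fin n → M.carrier) (hv : (sgF φ).eval M v) : X.eval M v := by
  have h1 : (sgF (.not φ)).eval M v ∨ X.eval M v :=
    hM n (.or (sgF (.not φ)) X) (.or (lv_sgF _) hX) (fun u => by
      show evF (Wd V W) (sgF (.not φ)) u ∨ evF (Wd V W) X u
      rw [sgF_nat hW]
      by_cases h2 : evF (Wd V W) φ u
      · exact Or.inr (h u h2)
      · exact Or.inl h2) v
  exact h1.resolve_left fun h2 => excl hW hM φ v hv h2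

theorem atom (hW : ∀ q, W q ≤ 2 ^ (q.size * q.size)) (hM : Sat M (Wd V W)) {n : ℕ}
    (φ : FR n) (h1 : Lv true 1 φ) (h2 : Lv false 1 φ) (v : Fin n → M.carrier) :
    (sgF φ).eval M v ↔ φ.eval M v := by
  constructor
  · exact imp_sat hW hM φ φ h1 (fun _ h => h) v
  · intro h
    have h3 : (¬ φ.eval M v) ∨ (sgF φ).eval M v :=
      hM n (.or (.not φ) (sgF φ)) (.or (.not h2) (lv_sgF _)) (fun u => by
        show (¬ evF (Wd V W) φ u) ∨ evF (Wd V W) (sgF φ) u
        rw [sgF_nat hW]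
        exact (em _).symm) v
    exact h3.resolve_left fun h4 => h4 h

theorem key (hW : ∀ q, W q ≤ 2 ^ (q.size * q.size)) (hM : Sat M (Wd V W)) {n : ℕ}
    (φ : FR n) : ∀ v : Fin n → M.carrier, (sgF φ).eval M v ↔ φ.eval M v := by
  induction φ with
  | eq s t => exact atom hW hM _ (.eq _ _) (.eq _ _)
  | le s t => exact atom hW hM _ (.le _ _) (.le _ _)
  | rel t => exact atom hW hM _ (.rel _) (.rel _)
  | not φ ih =>
    intro v
    show _ ↔ ¬ φ.eval M v
    rw [← ih v]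
    constructor
    · exact fun h h' => excl hW hM φ v h' h
    · exact fun h => (exh hW hM φ v).resolve_left h
  | and φ ψ ih1 ih2 =>
    intro v
    show _ ↔ (φ.eval M v ∧ ψ.eval M v)
    rw [← ih1 v, ← ih2 v]
    constructor
    · intro h
      exact imp_sat hW hM (.and φ ψ) (.and (sgF φ) (sgF ψ)) (.and (lv_sgF _) (lv_sgF _))
        (fun u hu => ⟨(sgF_nat hW φ u).2 hu.1, (sgF_nat hW ψ u).2 hu.2⟩) v h
    · rintro ⟨h1, h2⟩
      by_contra h3
      have h4 := (exh hW hM (.and φ ψ) v).resolve_left h3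
      have h5 : (sgF (.not φ)).eval M v ∨ (sgF (.not ψ)).eval M v :=
        imp_sat hW hM (.not (.and φ ψ)) (.or (sgF (.not φ)) (sgF (.not ψ)))
          (.or (lv_sgF _) (lv_sgF _)) (fun u hu => by
            show evF (Wd V W) (sgF (.not φ)) u ∨ evF (Wd V W) (sgF (.not ψ)) u
            rw [sgF_nat hW, sgF_nat hW]
            exact not_and_or.1 hu) v h4
      rcases h5 with h5 | h5
      · exact excl hW hM φ v h1 h5
      · exact excl hW hM ψ v h2 h5
  | or φ ψ ih1 ih2 =>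
    intro v
    show _ ↔ (φ.eval M v ∨ ψ.eval M v)
    rw [← ih1 v, ← ih2 v]
    constructor
    · intro h
      exact imp_sat hW hM (.or φ ψ) (.or (sgF φ) (sgF ψ)) (.or (lv_sgF _) (lv_sgF _))
        (fun u hu => hu.imp (sgF_nat hW φ u).2 (sgF_nat hW ψ u).2) v h
    · rintro (h | h)
      · exact imp_sat hW hM φ (sgF (.or φ ψ)) (lv_sgF _)
          (fun u hu => (sgF_nat hW (.or φ ψ) u).2 (Or.inl hu)) v h
      · exact imp_sat hW hM ψ (sgF (.or φ ψ)) (lv_sgF _)
          (fun u hu => (sgF_nat hW (.or φ ψ) u).2 (Or.inr hu)) v h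
  | all t φ ih =>
    intro v
    constructor
    · intro h y hy
      rw [← ih]
      have h1 := hM _ (.or (.not (.le (.var 0) (lf t))) (.or (sgT (lf (qT (.not (.all t φ)))))
        (sgF φ))) (.or (.not (.le _ _)) (.or (lv_sgT _) (lv_sgF _))) (fun u => by
          obtain ⟨y, u, rfl⟩ : ∃ (w' : ℕ) (u' : Fin _ → ℕ),
            u = Fin.cons (α := fun _ => ℕ) w' u' := ⟨u 0, Fin.tail u,
              (Fin.cons_self_tail u).symm⟩
          show (¬ y ≤ ev (lf t) (cn y u)) ∨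
            (evF (Wd V W) (sgT (lf (qT (.not (.all t φ))))) (cn y u) ∨
            evF (Wd V W) (sgF φ) (cn y u))
          rw [ev_lf, lf_nat hW, sgF_nat hW]
          show (¬ y ≤ ev t u) ∨ ((¬ ∀ y, y ≤ ev t u → evF (Wd V W) φ (cn y u)) ∨
            evF (Wd V W) φ (cn y u))
          by_cases h3 : ∀ y, y ≤ ev t u → evF (Wd V W) φ (cn y u)
          · by_cases h4 : y ≤ ev t u
            · exact Or.inr (Or.inr (h3 y h4))
            · exact Or.inl h4
          · exact Or.inr (Or.inl h3)) (Fin.cons (α := fun _ => M.carrier) y v)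
      have h2 : (¬ M.le y ((lf t).eval M.toStr (Fin.cons (α := fun _ => M.carrier) y v))) ∨
          ((sgT (lf (qT (.not (.all t φ))))).eval M (Fin.cons (α := fun _ => M.carrier) y v) ∨
          (sgF φ).eval M (Fin.cons (α := fun _ => M.carrier) y v)) := h1
      rw [eval_lf, eval_sgT, eval_lf, ← eval_sgT] at h2
      rcases h2 with h2 | h2 | h2
      · exact absurd hy h2
      · exact (excl hW hM (.all t φ) v h h2).elim
      · exact h2
    · intro h
      by_contra h1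
      have h2 := (exh hW hM (.all t φ) v).resolve_left h1
      have h3 : (FR.ex t (sgF (.not φ))).eval M v :=
        imp_sat hW hM (.not (.all t φ)) (.ex t (sgF (.not φ))) (.ex _ (lv_sgF _)) (fun u hu => by
          have hu' : ¬ ∀ y, y ≤ ev t u → evF (Wd V W) φ (cn y u) := hu
          rw [not_forall] at hu'
          obtain ⟨y, hy⟩ := hu'
          rw [Classical.not_imp] at hy
          exact ⟨y, hy.1, (sgF_nat hW (.not φ) _).2 hy.2⟩) v h2
      obtain ⟨y, hy, h4⟩ := h3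
      exact excl hW hM φ _ ((ih _).2 (h y hy)) h4
  | ex t φ ih =>
    intro v
    constructor
    · intro h
      have h3 : (FR.ex t (sgF φ)).eval M v :=
        imp_sat hW hM (.ex t φ) (.ex t (sgF φ)) (.ex _ (lv_sgF _)) (fun u hu => by
          obtain ⟨y, hy, h4⟩ := hu
          exact ⟨y, hy, (sgF_nat hW φ _).2 h4⟩) v h
      obtain ⟨y, hy, h4⟩ := h3
      exact ⟨y, hy, (ih _).1 h4⟩
    · rintro ⟨y, hy, h⟩
      rw [← ih] at h
      have h1 := hM _ (.or (.not (.le (.var 0) (lf t))) (.or (sgT (lf (qT (.ex t φ))))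
        (sgF (.not φ)))) (.or (.not (.le _ _)) (.or (lv_sgT _) (lv_sgF _))) (fun u => by
          obtain ⟨y, u, rfl⟩ : ∃ (w' : ℕ) (u' : Fin _ → ℕ),
            u = Fin.cons (α := fun _ => ℕ) w' u' := ⟨u 0, Fin.tail u,
              (Fin.cons_self_tail u).symm⟩
          show (¬ y ≤ ev (lf t) (cn y u)) ∨
            (evF (Wd V W) (sgT (lf (qT (.ex t φ)))) (cn y u) ∨
            evF (Wd V W) (sgF (.not φ)) (cn y u))
          rw [ev_lf, lf_nat hW, sgF_nat hW]
          show (¬ y ≤ ev t u) ∨ ((∃ y, y ≤ ev t u ∧ evF (Wd V W) φ (cn y u)) ∨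
            ¬ evF (Wd V W) φ (cn y u))
          by_cases h3 : evF (Wd V W) φ (cn y u)
          · by_cases h4 : y ≤ ev t u
            · exact Or.inr (Or.inl ⟨y, h4, h3⟩)
            · exact Or.inl h4
          · exact Or.inr (Or.inr h3)) (Fin.cons (α := fun _ => M.carrier) y v)
      have h2 : (¬ M.le y ((lf t).eval M.toStr (Fin.cons (α := fun _ => M.carrier) y v))) ∨
          ((sgT (lf (qT (.ex t φ)))).eval M (Fin.cons (α := fun _ => M.carrier) y v) ∨
          (sgF (.not φ)).eval M (Fin.cons (α := fun _ => M.carrier) y v)) := h1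
      rw [eval_lf, eval_sgT, eval_lf, ← eval_sgT] at h2
      rcases h2 with h2 | h2 | h2
      · exact absurd hy h2
      · exact h2
      · exact (excl hW hM φ _ h h2).elim

theorem all_true (hW : ∀ q, W q ≤ 2 ^ (q.size * q.size)) (hM : Sat M (Wd V W)) {n : ℕ}
    (φ : FR n) (h : Tr (Wd V W) φ) (v : Fin n → M.carrier) : φ.eval M v :=
  (key hW hM φ v).1 (hM n (sgF φ) (lv_sgF φ) (fun u => (sgF_nat hW φ u).2 (h u)) v)

/-- the question for `φ` with other terms for the variables -/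
def qS {n k : ℕ} (φ : FR n) (σ : Fin n → Tm k) : Tm k := sub σ (qT φ)

theorem eval_qS (hW : ∀ q, W q ≤ 2 ^ (q.size * q.size)) (hM : Sat M (Wd V W)) {n k : ℕ}
    (φ : FR n) (σ : Fin n → Tm k) (v : Fin k → M.carrier) :
    (sgT (qS φ σ)).eval M v ↔ φ.eval M (fun i => (σ i).eval M.toStr v) := by
  rw [eval_sgT, qS, eval_sub, ← eval_sgT]
  exact key hW hM φ _

theorem sat_nat (B : ℕ → Prop) : Sat (natR B) B := fun _ _ _ h v => h v

theorem ind_all (hW : ∀ q, W q ≤ 2 ^ (q.size * q.size)) (hM : Sat M (Wd V W)) {n : ℕ}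
    (φ : FR (n + 1)) : M.Ind φ := by
  intro v h0 hs x
  let σ0 : Fin (n + 1) → Tm (n + 1) := Fin.cons (α := fun _ => Tm (n + 1)) .zero
    (fun i => .var i.succ)
  let σu : Fin (n + 1) → Tm (n + 2) := Fin.cons (α := fun _ => Tm (n + 2)) (.var 0)
    (fun i => .var i.succ.succ)
  let σs : Fin (n + 1) → Tm (n + 2) := Fin.cons (α := fun _ => Tm (n + 2)) (.succ (.var 0))
    (fun i => .var i.succ.succ)
  let χ : FR (n + 1) := .or (.not (sgT (qS φ σ0))) (.or φ (.ex (.var 0)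
    (.and (sgT (qS φ σu)) (.not (sgT (qS φ σs))))))
  have hχ : ∀ (M : StrR), Sat M (Wd V W) → ∀ (v : Fin n → M.carrier) (x : M.carrier),
      χ.eval M (Fin.cons (α := fun _ => M.carrier) x v) ↔
      ((¬ φ.eval M (Fin.cons (α := fun _ => M.carrier) M.zero v)) ∨
        (φ.eval M (Fin.cons (α := fun _ => M.carrier) x v) ∨ ∃ u, M.le u x ∧
        (φ.eval M (Fin.cons (α := fun _ => M.carrier) u v) ∧
        ¬ φ.eval M (Fin.cons (α := fun _ => M.carrier) (M.succ u) v)))) := by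
    intro M hM v x
    have e0 : (fun i => (σ0 i).eval M.toStr (Fin.cons (α := fun _ => M.carrier) x v)) =
        Fin.cons (α := fun _ => M.carrier) M.zero v := by
      funext i
      refine Fin.cases rfl (fun _ => rfl) i
    have eu : ∀ u, (fun i => (σu i).eval M.toStr (Fin.cons (α := fun _ => M.carrier) u
        (Fin.cons (α := fun _ => M.carrier) x v))) =
        Fin.cons (α := fun _ => M.carrier) u v := by
      intro u
      funext i
      refine Fin.cases rfl (fun _ => rfl) i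
    have es : ∀ u, (fun i => (σs i).eval M.toStr (Fin.cons (α := fun _ => M.carrier) u
        (Fin.cons (α := fun _ => M.carrier) x v))) =
        Fin.cons (α := fun _ => M.carrier) (M.succ u) v := by
      intro u
      funext i
      refine Fin.cases rfl (fun _ => rfl) i
    show ((¬ (sgT (qS φ σ0)).eval M _) ∨ (_ ∨ ∃ u, M.le u x ∧ ((sgT (qS φ σu)).eval M _ ∧
      ¬ (sgT (qS φ σs)).eval M _))) ↔ _
    simp only [eval_qS hW hM, e0, eu, es]
  have h1 : χ.eval M (Fin.cons (α := fun _ => M.carrier) x v) := by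
    refine all_true hW hM χ (fun u => ?_) _
    obtain ⟨x, u, rfl⟩ : ∃ (w' : ℕ) (u' : Fin n → ℕ),
      u = Fin.cons (α := fun _ => ℕ) w' u' := ⟨u 0, Fin.tail u, (Fin.cons_self_tail u).symm⟩
    refine (hχ (natR (Wd V W)) (sat_nat _) u x).2 ?_
    by_contra hcon
    rw [not_or, not_or, not_not] at hcon
    obtain ⟨h2, h3, h4⟩ := hcon
    apply h3
    have h5 : ∀ z : ℕ, z ≤ x → evF (Wd V W) φ (cn z u) := by
      intro z
      induction z with
      | zero => exact fun _ => h2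
      | succ z ih =>
        intro hz
        by_contra h6
        exact h4 ⟨z, (by omega : z ≤ x), ih (by omega), h6⟩
    exact h5 x le_rfl
  rw [hχ M hM] at h1
  rcases h1 with h1 | h1 | ⟨u, -, h1, h2⟩
  · exact absurd h0 h1
  · exact h1
  · exact absurd (hs u h1) h2

theorem model_all (hW : ∀ q, W q ≤ 2 ^ (q.size * q.size)) (hM : Sat M (Wd V W)) (i : ℕ) :
    M.IsModelT i :=
  ⟨basic_of fun _ φ _ hφ v => all_true hW hM φ (fun u => hφ _ u) v,
    fun _ φ _ => ind_all hW hM φ⟩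

end Pool.Agent.V8H59.CF
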