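import Pool.Agent.V8H59.CF.F

/-!
# One stage of the construction
-/

set_option autoImplicit false

namespace Pool.Agent.V8H59.CF

open Pool.Agent.TH686.BA Pool.Agent.V8H57.BX

instance : Nonempty Ins := ⟨⟨0, 0, .zero, .eq .zero .zero, .eq .zero .zero, fun _ => 0, 0⟩⟩

/-- an enumeration of the instructions -/
noncomputable def en : ℕ → Ins := (exists_surjective_nat Ins).choose

theorem en_surj : Function.Surjective en := (exists_surjective_nat Ins).choose_spec

/-- the instructions in the order of their execution, each one infinitely often -/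
noncomputable def ins (j : ℕ) : Ins := en (Nat.unpair j).1

theorem exists_ins (i : Ins) (N : ℕ) : ∃ j, N ≤ j ∧ ins j = i := by
  obtain ⟨a, ha⟩ := en_surj i
  refine ⟨Nat.pair a N, Nat.right_le_pair a N, ?_⟩
  rw [ins, Nat.unpair_pair]
  exact ha

/-- the exponent of the step -/
noncomputable def kc (j : ℕ) : ℕ := (stp (ins j)).choose

theorem kc_spec (j : ℕ) : Stp (ins j) (kc j) := (stp (ins j)).choose_spec

/-- the exponent after `j` steps -/
noncomputable def ex : ℕ → ℕ
  | 0 => 1
  | j + 1 => ex j + ex j * kc j + 2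

theorem ex_pos (j : ℕ) : 1 ≤ ex j := by
  cases j with
  | zero => exact le_rfl
  | succ j =>
    rw [ex]
    omega

theorem ex_mono {a b : ℕ} (h : a ≤ b) : ex a ≤ ex b := by
  induction h with
  | refl => exact le_rfl
  | step _ ih =>
    rename_i m _
    refine ih.trans ?_
    rw [ex]
    have := Nat.zero_le (ex m * kc m)
    omega

theorem Sp.congr {F : (ℕ → Prop) → Prop} {x : ℕ} {i : Ins} {vals vals' : ℕ → ℕ}
    {B : ℕ → Prop} {C : Finset ℕ} {y : ℕ} (h : Sp F x i vals B C y)
    (h1 : i.v vals' = i.v vals) (h2 : vals' i.a = vals i.a) : Sp F x i vals' B C y where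
  s0 := h.s0
  s1 := by rw [h1]; exact h.s1
  s2 := by rw [h1]; exact h.s2
  s3 := by rw [h1, h2]; exact h.s3
  s4 := by rw [h2]; exact h.s4
  s5 := by rw [h1]; exact h.s5

/-- the requirement for the instruction `j` -/
def Sq (B₀ : ℕ → Prop) (x : ℕ) (vals : ℕ → ℕ) (B : ℕ → Prop) (C : Finset ℕ) (j : ℕ) : Prop :=
  (∀ b, (ins j).idx b < j) → (ins j).a < j → Sp (Fam B₀ x) x (ins j) vals B C (vals j)

theorem stage (n L x : ℕ) (B₀ : ℕ → Prop) (hL : 2 ≤ L) (hx : x.size ≤ L)
    (h0 : ∀ a b, ¬ B₀ (pos x a b)) (hx2 : 2 * L ^ ex n + 2 ≤ x) : ∀ j ≤ n,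
    ∃ (vals : ℕ → ℕ) (B : ℕ → Prop) (C : Finset ℕ), Fam B₀ x B ∧ C.card ≤ L ^ ex j ∧
      (∀ i, (vals i).size ≤ L ^ ex j) ∧ ∀ j' < j, Sq B₀ x vals B C j' := by
  intro j
  induction j with
  | zero =>
    intro _
    refine ⟨fun _ => 0, wo B₀ x (fun a => (a : ℤ)), ∅, ⟨_, fun a b _ _ h => by exact_mod_cast h,
      rfl⟩, by simp, fun _ => by simp, fun j' h => absurd h (Nat.not_lt_zero _)⟩
  | succ j ih =>
    intro hj
    obtain ⟨vals, B, C, hF, hC, hv, hsp⟩ := ih (by omega)
    have hLj : 2 ≤ L ^ ex j := by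
      have h1 := pw hL (ex_pos j)
      rw [pow_one] at h1
      omega
    have e1 := pw hL (ex_mono (show j ≤ n by omega))
    have e2 : L ≤ L ^ ex j := by
      have h1 := pw hL (ex_pos j)
      rwa [pow_one] at h1
    obtain ⟨B', C', y, h1, h2, h3, h4, h5, h6⟩ := kc_spec j (L ^ ex j) hLj x vals B₀ B C
      (hx.trans e2) hv h0 hF (by omega)
    rw [← pow_mul] at h4 h5
    have hpow := pow_three L (ex j) (ex j * kc j) hL
    have e3 : L ^ ex j ≤ L ^ ex (j + 1) := pw hL (ex_mono (Nat.le_succ j))
    have e4 : L ^ (ex j * kc j) ≤ L ^ ex (j + 1) := by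
      rw [ex]
      exact pw hL (by omega)
    rw [show ex j + ex j * kc j + 2 = ex (j + 1) from rfl] at hpow
    refine ⟨Function.update vals j y, B', C', h1, by omega, fun i => ?_, fun j' hj' hb ha => ?_⟩
    · by_cases hi : i = j
      · rw [hi, Function.update_self]
        exact h5.trans e4
      · rw [Function.update_of_ne hi]
        exact (hv i).trans e3
    · rcases Nat.lt_or_ge j' j with h7 | h7
      · rw [Function.update_of_ne (by omega)]
        refine ((hsp j' h7 hb ha).ext h2 h3).congr ?_ ?_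
        · funext b
          exact Function.update_of_ne (by have := hb b; omega) _ _
        · exact Function.update_of_ne (by omega) _ _
      · obtain rfl : j' = j := by omega
        rw [Function.update_self]
        refine h6.congr ?_ ?_
        · funext b
          exact Function.update_of_ne (by have := hb b; omega) _ _
        · exact Function.update_of_ne (by omega) _ _

end Pool.Agent.V8H59.CF
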