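import Pool.Agent.V8H57.BX.Cert
import Pool.Agent.V8H57.BX.Form

/-!
# The world with hidden witnesses
-/

set_option autoImplicit false

namespace Pool.Agent.V8H59.CF

open Pool.Agent.TH686.BA Pool.Agent.V8H57.BX

/-- code of the question whether the formula holds in the world cut at `y` -/
abbrev Qc {n : ℕ} (φ : FR n) (v : Fin n → ℕ) (y : ℕ) : ℕ := Q φ v 0 0 y

/-- the true questions; `V` is the visible part, `W q` the witness of the question `q` -/
def Kh (V : ℕ → Prop) (W : ℕ → ℕ) (q : ℕ) : Prop :=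
  ∃ (n : ℕ) (φ : FR n) (v : Fin n → ℕ) (y : ℕ), q = Qc φ v y ∧
    evF (fun m => m ≤ y ∧ ((m % 2 = 0 ∧ ∃ z, ∃ _h : z < q, m / 2 = P z (W z) ∧ Kh V W z) ∨
      (m % 2 = 1 ∧ V (m / 2)))) φ v
termination_by q

/-- the world -/
def Wd (V : ℕ → Prop) (W : ℕ → ℕ) (m : ℕ) : Prop :=
  (m % 2 = 0 ∧ ∃ z, m / 2 = P z (W z) ∧ Kh V W z) ∨ (m % 2 = 1 ∧ V (m / 2))

theorem Kh_iff (V : ℕ → Prop) (W : ℕ → ℕ) (q : ℕ) : Kh V W q ↔
    ∃ (n : ℕ) (φ : FR n) (v : Fin n → ℕ) (y : ℕ), q = Qc φ v y ∧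
      evF (fun m => m ≤ y ∧ Wd V W m) φ v := by
  rw [Kh]
  refine exists_congr fun n => exists_congr fun φ => exists_congr fun v => exists_congr fun y =>
    and_congr_right fun hq => ?_
  have h1 : y < q := by
    rw [hq]
    exact lt_Q φ v 0 0 y
  have hW : (fun m => m ≤ y ∧ ((m % 2 = 0 ∧ ∃ z, ∃ _h : z < q, m / 2 = P z (W z) ∧ Kh V W z) ∨
      (m % 2 = 1 ∧ V (m / 2)))) = (fun m => m ≤ y ∧ Wd V W m) := by
    funext m
    apply propext
    refine and_congr_right fun hm => or_congr (and_congr_right fun _ => ?_) Iff.rfl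
    refine exists_congr fun z => ⟨fun h => h.2, fun h => ⟨?_, h⟩⟩
    have h2 := le_P_left z (W z)
    have h3 := h.1
    omega
  rw [hW]

theorem Kh_Q (V : ℕ → Prop) (W : ℕ → ℕ) {n : ℕ} (φ : FR n) (v : Fin n → ℕ) :
    Kh V W (Qc φ v (ev (bd φ) v)) ↔ evF (Wd V W) φ v := by
  rw [Kh_iff]
  have hc : evF (fun m => m ≤ ev (bd φ) v ∧ Wd V W m) φ v ↔ evF (Wd V W) φ v :=
    evF_congr φ v _ le_rfl fun m hm => ⟨fun h => h.2, fun h => ⟨hm, h⟩⟩
  constructor
  · rintro ⟨n', φ', v', y, h, h2⟩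
    obtain ⟨h3, -, -, h4⟩ := Q_inj h
    cases h3
    rw [← h4] at h2
    exact hc.1 h2
  · intro h
    exact ⟨n, φ, v, _, rfl, hc.2 h⟩

theorem Wd_congr {V V' : ℕ → Prop} {W W' : ℕ → ℕ} (q : ℕ) (hV : ∀ z < q, (V z ↔ V' z))
    (hW : ∀ z < q, W z = W' z) :
    ∀ z ≤ q, (Kh V W z ↔ Kh V' W' z) := by
  intro z
  induction z using Nat.strong_induction_on with
  | _ z ih =>
    intro hz
    rw [Kh_iff, Kh_iff]
    refine exists_congr fun n => exists_congr fun φ => exists_congr fun v =>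
      exists_congr fun y => and_congr_right fun hq => ?_
    have h1 : y < z := by
      rw [hq]
      exact lt_Q φ v 0 0 y
    have hW : (fun m => m ≤ y ∧ Wd V W m) = (fun m => m ≤ y ∧ Wd V' W' m) := by
      funext m
      apply propext
      refine and_congr_right fun hm => or_congr (and_congr_right fun _ => ?_)
        (and_congr_right fun _ => hV _ (by omega))
      refine exists_congr fun t => ?_
      constructor
      · rintro ⟨h2, h3⟩
        have h4 := le_P_left t (W t)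
        have h5 : t < z := by omega
        exact ⟨by rw [← hW t (by omega)]; exact h2, (ih t h5 (by omega)).1 h3⟩
      · rintro ⟨h2, h3⟩
        have h4 := le_P_left t (W' t)
        have h5 : t < z := by omega
        exact ⟨by rw [hW t (by omega)]; exact h2, (ih t h5 (by omega)).2 h3⟩
    rw [hW]

/-- the term for the question -/
def qT {n : ℕ} (φ : FR n) : Tm n := cdT (nm (cc φ) :: .zero :: .zero :: bd φ :: List.ofFn Tm.var)

/-- the formula: the question given by the term has a witness -/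
def sgT {k : ℕ} (q : Tm k) : FR k :=
  .ex (.smash q q) (.rel (.mul two (PT (sub (fun i => .var i.succ) q) (.var 0))))

/-- the formula equivalent to `φ` -/
def sgF {n : ℕ} (φ : FR n) : FR n := sgT (qT φ)

/-- the question has a witness, in a structure -/
def SgM (M : StrR) (x : M.carrier) : Prop :=
  ∃ w, M.le w (M.smash x x) ∧ M.rel (M.mul (twoM M.toStr) (PM M.toStr x w))

theorem eval_sgT (M : StrR) {k : ℕ} (q : Tm k) (v : Fin k → M.carrier) :
    (sgT q).eval M v ↔ SgM M (q.eval M.toStr v) := by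
  show (∃ w : M.carrier, M.le w (M.smash (q.eval M.toStr v) (q.eval M.toStr v)) ∧
    M.rel (M.mul (twoM M.toStr) (PM M.toStr ((sub (fun i => .var i.succ) q).eval M.toStr
      (Fin.cons (α := fun _ => M.carrier) w v)) w))) ↔ _
  refine exists_congr fun w => and_congr_right fun _ => ?_
  rw [eval_sub]
  exact Iff.rfl

theorem lv_sgT {k : ℕ} (q : Tm k) : Lv true 1 (sgT q) := .ex _ (.rel _)

theorem nmM_nat (c : ℕ) : nmM natStr c = c := by
  induction c with
  | zero => rfl
  | succ c ih => exact congrArg Nat.succ ih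

theorem cdM_nat (l : List ℕ) : cdM natStr l = cdl l := by
  induction l with
  | nil => rfl
  | cons a l ih => exact congrArg (P a) ih

theorem ev_qT {n : ℕ} (φ : FR n) (v : Fin n → ℕ) : ev (qT φ) v = Qc φ v (ev (bd φ) v) := by
  have h0 := eval_cdT natStr (k := n) v (nm (cc φ) :: .zero :: .zero :: bd φ :: List.ofFn Tm.var)
  have h2 : (nm (cc φ) :: .zero :: .zero :: bd φ :: List.ofFn Tm.var : List (Tm n)).map
      (fun t => t.eval natStr v) = (nmM natStr (cc φ) :: natStr.zero :: natStr.zero ::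
      ev (bd φ) v :: List.ofFn v) := by
    simp only [List.map_cons, List.map_ofFn]
    exact congrArg₂ List.cons (eval_nm natStr v (cc φ)) rfl
  rw [h2] at h0
  refine h0.trans ?_
  rw [nmM_nat]
  exact cdM_nat _

theorem lv_sgF {n : ℕ} (φ : FR n) : Lv true 1 (sgF φ) := lv_sgT _

theorem sgF_iff (V : ℕ → Prop) (W : ℕ → ℕ) (hW : ∀ q, W q ≤ 2 ^ (q.size * q.size)) {n : ℕ}
    (φ : FR n) (v : Fin n → ℕ) :
    evF (Wd V W) φ v ↔ evF (Wd V W) (sgF φ) v := by
  rw [← Kh_Q]
  set q := Qc φ v (ev (bd φ) v) with hq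
  have h1 : evF (Wd V W) (sgF φ) v ↔ ∃ w, w ≤ 2 ^ (q.size * q.size) ∧ Wd V W (2 * P q w) := by
    show (∃ w : ℕ, w ≤ 2 ^ ((ev (qT φ) v).size * (ev (qT φ) v).size) ∧
      Wd V W (2 * P (ev (sub (fun i => .var i.succ) (qT φ))
        (Fin.cons (α := fun _ => ℕ) w v)) w)) ↔ _
    refine exists_congr fun w => ?_
    have h2 : ev (sub (fun i => .var i.succ) (qT φ)) (Fin.cons (α := fun _ => ℕ) w v) =
        ev (qT φ) v :=
      eval_sub natStr (fun i => .var i.succ) (qT φ) (Fin.cons (α := fun _ => ℕ) w v)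
    rw [h2, ev_qT, ← hq]
  rw [h1]
  constructor
  · intro h
    refine ⟨W q, hW q, Or.inl ⟨by omega, q, by omega, h⟩⟩
  · rintro ⟨w, -, h | h⟩
    · obtain ⟨-, z, h3, h4⟩ := h
      have h5 : P q w = P z (W z) := by omega
      rw [(P_inj h5).1]
      exact h4
    · omega

end Pool.Agent.V8H59.CF
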